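import Pool.Agent.MVO.StmtsE
import Pool.Agent.Helper28_MVO.ORD
import Pool.Agent.Helper5_MVO.ONE

/-!
# Squad MVO, row DTG (helper39)
-/

set_option autoImplicit false

namespace Pool.Agent.MVO.H39

open Pool.Agent.MVO Pool.Agent.MVO.H28 Pool.Agent.Helper14_MV Pool.Agent.Helper2_MV

theorem gb_congr {m m' : ℕ → ℕ} {l : List ℕ} (h : ∀ c ∈ l, m c = m' c) : gb m l = gb m' l := by
  unfold gb
  exact List.flatMap_congr fun c hc => by rw [h c hc]

theorem r2_flat (x y : ℕ) (l : List ℕ) :
    (l.filter (fun c => decide (c = x ∨ c = y))).flatMap (hxy x y) = l.flatMap (hxy x y) := by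
  induction l with
  | nil => rfl
  | cons c l ih =>
    by_cases h : c = x ∨ c = y
    · rw [List.filter_cons_of_pos (by rw [decide_eq_true_iff]; exact h), List.flatMap_cons,
        List.flatMap_cons, ih]
    · rw [List.filter_cons_of_neg (by rw [decide_eq_true_iff]; exact h), List.flatMap_cons, ih]
      rw [not_or] at h
      unfold hxy
      rw [if_neg h.1, if_neg h.2]
      rfl

theorem r2_ok {k : ℕ} {B : ℕ → List ℕ} (h : BlkOk k B) (x y : ℕ) : BlkOk k (r2 x y B) := by
  intro j hj c hc
  exact h j hj c (List.mem_of_mem_filter hc)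

theorem dtg (hBub : BubStmt) (hAln : AlnStmt) : DtgStmt := by
  intro ω hG hR hSW k B B' hB hB' hm hdeg h2
  set X : List ℕ := ((List.range (k + 1)).flatMap B).dedup with hX
  have hXmem : ∀ c, c ∈ X ↔ ∃ j ≤ k, c ∈ B j := by
    intro c
    rw [hX, List.mem_dedup, List.mem_flatMap]
    constructor
    · rintro ⟨j, hj, hc⟩
      rw [List.mem_range] at hj
      exact ⟨j, by omega, hc⟩
    · rintro ⟨j, hj, hc⟩
      exact ⟨j, by rw [List.mem_range]; omega, hc⟩
  have hXnd : X.Nodup := List.nodup_dedup _
  have hXns : ∀ c ∈ X, NS k c := by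
    intro c hc
    obtain ⟨j, hj, h⟩ := (hXmem c).mp hc
    exact hB j hj c h
  have hXm : ∀ c ∈ X, 2 ≤ deg k (fun j => (B j).count c) := by
    intro c hc
    obtain ⟨j, hj, h⟩ := (hXmem c).mp hc
    exact hm j hj c h
  have hXm' : ∀ c ∈ X, 2 ≤ deg k (fun j => (B' j).count c) := by
    intro c hc
    rw [← hdeg c]
    exact hXm c hc
  have hX' : ∀ j ≤ k, ∀ c ∈ B' j, c ∈ X := by
    intro j hj c hc
    by_contra hcon
    have h0 : deg k (fun j => (B j).count c) = 0 := by
      unfold deg
      refine Finset.sum_eq_zero fun i hi => ?_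
      rw [Finset.mem_range] at hi
      rw [List.count_eq_zero]
      intro hci
      exact hcon ((hXmem c).mpr ⟨i, by omega, hci⟩)
    rw [hdeg c] at h0
    unfold deg at h0
    rw [Finset.sum_eq_zero_iff] at h0
    have h1 := h0 j (by rw [Finset.mem_range]; omega)
    rw [List.count_eq_zero] at h1
    exact h1 hc
  obtain ⟨D, hDp, hD⟩ := hG k B X hB hXnd hXns (fun j hj c hc => (hXmem c).mpr ⟨j, hj, hc⟩) hXm
  obtain ⟨D', hDp', hD'⟩ := hG k B' X hB' hXnd hXns hX' hXm'
  -- one letter identities
  have hL : ∀ c ∈ X, L1 ω k (fun j => (B j).count c) (fun j => (B' j).count c) := by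
    intro c hc
    have h1 := Pool.Agent.MVO.H5.one.1 ω k (r2 c c B) (r2 c c B') c (hXns c hc) (r2_ok hB c c)
      (r2_ok hB' c c) (h2 c c)
    have e : ∀ B : ℕ → List ℕ, (fun j => (r2 c c B j).count c) = fun j => (B j).count c := by
      intro B
      funext j
      unfold r2
      rw [List.count_filter (by rw [decide_eq_true_iff]; exact Or.inl rfl)]
    rw [e, e] at h1
    exact h1
  -- change of the types
  have hY : ∀ Y : List ℕ, (∀ c ∈ Y, c ∈ X) → RR ω (gw k (fun j c => (B j).count c) D)
      (gw k (fun j c => if c ∈ Y then (B' j).count c else (B j).count c) D) := by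
    intro Y
    induction Y with
    | nil =>
      intro _
      have e : (fun (j c : ℕ) => if c ∈ ([] : List ℕ) then (B' j).count c else (B j).count c) =
          fun j c => (B j).count c := by
        funext j c
        rw [if_neg (List.not_mem_nil)]
      rw [e]
      exact RR.refl _
    | cons c Y ih =>
      intro hc
      have h1 := ih (fun d hd => hc d (List.mem_cons_of_mem _ hd))
      have hcX := hc c List.mem_cons_self
      by_cases hcY : c ∈ Y
      · have e : (fun (j d : ℕ) => if d ∈ c :: Y then (B' j).count d else (B j).count d) =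
            fun j d => if d ∈ Y then (B' j).count d else (B j).count d := by
          funext j d
          by_cases hd : d ∈ Y
          · rw [if_pos hd, if_pos (List.mem_cons_of_mem _ hd)]
          · rw [if_neg hd, if_neg (fun h => (List.mem_cons.mp h).elim
              (fun h' => hd (by rw [h']; exact hcY)) hd)]
        rw [e]
        exact h1
      · have h3 := hAln ω k X (fun j d => if d ∈ Y then (B' j).count d else (B j).count d) D hXnd
          hDp c hcX (fun j => (B' j).count c) (by
            have e : (fun j => (fun (j d : ℕ) => if d ∈ Y then (B' j).count d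
                else (B j).count d) j c) = fun j => (B j).count c := by
              funext j
              change (if c ∈ Y then (B' j).count c else (B j).count c) = _
              rw [if_neg hcY]
            rw [e]
            exact hL c hcX)
        have e : (fun (j d : ℕ) => if d ∈ c :: Y then (B' j).count d else (B j).count d) =
            fun j => Function.update (fun d => if d ∈ Y then (B' j).count d
              else (B j).count d) c ((B' j).count c) := by
          funext j d
          by_cases hdc : d = c
          · subst hdc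
            rw [Function.update_self, if_pos List.mem_cons_self]
          · rw [Function.update_of_ne hdc]
            by_cases hd : d ∈ Y
            · rw [if_pos hd, if_pos (List.mem_cons_of_mem _ hd)]
            · rw [if_neg hd, if_neg (fun h => (List.mem_cons.mp h).elim hdc hd)]
        rw [e]
        exact ω.trans h1 h3
  set n : ℕ → ℕ → ℕ := fun j c => (B' j).count c with hn
  have hBD : RR ω (asm k B) (gw k n D) := by
    have h1 := hY X (fun _ h => h)
    have e : gw k (fun j c => if c ∈ X then (B' j).count c else (B j).count c) D = gw k n D := by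
      unfold gw
      apply asm_congr
      intro j _
      apply gb_congr
      intro c hc
      exact if_pos ((hDp j).mem_iff.mp hc)
    rw [e] at h1
    exact ω.trans hD h1
  have hGD : GData k X n D := ⟨hXnd, hXns, hXm', hDp⟩
  have hGD' : GData k X n D' := ⟨hXnd, hXns, hXm', hDp'⟩
  -- one exchange
  have hstep : ∀ D1 : ℕ → List ℕ, GData k X n D1 → RR ω (asm k B) (gw k n D1) → ∀ i ≤ k,
      ∀ l2 : List ℕ, Exch (D' i) (D1 i) l2 →
        GData k X n (Function.update D1 i l2) ∧
        RR ω (asm k B) (gw k n (Function.update D1 i l2)) := by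
    intro D1 hG1 hr1 i hi l2 hex
    have hG2 : GData k X n (Function.update D1 i l2) := by
      refine ⟨hG1.nodup, hG1.ns, hG1.mult, fun j => ?_⟩
      by_cases hj : j = i
      · subst hj
        rw [Function.update_self]
        exact (exch_perm hex).trans (hG1.perm j)
      · rw [Function.update_of_ne hj]
        exact hG1.perm j
    refine ⟨hG2, ω.trans hr1 ?_⟩
    obtain ⟨A, C, x, y, hDi, rfl, P, Q, R, hD'i⟩ := hex
    have hnd : ∀ j, (D1 j).Nodup := fun j => (hG1.perm j).nodup_iff.2 hXnd
    have hnd' : ∀ j, (D' j).Nodup := fun j => (hDp' j).nodup_iff.2 hXnd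
    have hxX : x ∈ X := (hG1.perm i).mem_iff.1 (by rw [hDi]; simp)
    have hyX : y ∈ X := (hG1.perm i).mem_iff.1 (by rw [hDi]; simp)
    have hne : x ≠ y := by
      intro h
      have h1 := hnd i
      rw [hDi, h] at h1
      have h3 := (List.nodup_append.1 h1).2.1
      rw [List.nodup_cons] at h3
      exact h3.1 (List.mem_cons_self ..)
    have hxD : ∀ j, x ∈ D1 j := fun j => (hG1.perm j).mem_iff.2 hxX
    have hyD : ∀ j, y ∈ D1 j := fun j => (hG1.perm j).mem_iff.2 hyX
    have hxD' : ∀ j, x ∈ D' j := fun j => (hDp' j).mem_iff.2 hxX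
    have hyD' : ∀ j, y ∈ D' j := fun j => (hDp' j).mem_iff.2 hyX
    have hda : 2 ≤ deg k (fun j => n j x) := hG1.mult x hxX
    have hdb : 2 ≤ deg k (fun j => n j y) := hG1.mult y hyX
    have hsw : (∀ e, Ex ω k (fun j => n j x) (fun j => n j y) e i) →
        RR ω (gw k n D1) (gw k n (Function.update D1 i (A ++ y :: x :: C))) :=
      hSW ω (fun _ _ h => h) k X n D1 hG1 i hi A C x y hDi
    obtain ⟨r, hr⟩ := hR k (fun j => n j x) (fun j => n j y) hda hdb
    apply hsw
    by_cases hri : r = i
    · subst hri
      have e1 : asm k (fun j => (gb (n j) (D1 j)).flatMap (hxy x y)) =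
          w2 k (fun j => n j x) (fun j => n j y) (fun j => bef x y (D1 j)) := by
        unfold w2
        exact asm_congr fun j _ => flat_bl (n j) hne (hnd j) (hxD j) (hyD j)
      have e2 : asm k (fun j => (gb (n j) (D' j)).flatMap (hxy x y)) =
          w2 k (fun j => n j x) (fun j => n j y) (fun j => bef x y (D' j)) := by
        unfold w2
        exact asm_congr fun j _ => flat_bl (n j) hne (hnd' j) (hxD' j) (hyD' j)
      have hb0 : bef x y (D1 r) = false := by
        apply bef_false
        rintro ⟨P', Q', R', h⟩
        exact not_both hne (hnd r) (P := A) (Q := []) (R := C) (by rw [hDi]; simp) h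
      have hb1 : bef x y (D' r) = true := bef_true ⟨P, Q, R, hD'i⟩
      have a1 := rr_sub ω (hxy x y) hB (blkOk_gb hG1) hr1
      have a2 := rr_sub ω (hxy x y) hB' (blkOk_gb hGD') hD'
      have a3 := rr_sub ω (hxy x y) (r2_ok hB x y) (r2_ok hB' x y) (h2 x y)
      have e3 : ∀ B : ℕ → List ℕ, asm k (fun j => (r2 x y B j).flatMap (hxy x y)) =
          asm k (fun j => (B j).flatMap (hxy x y)) := by
        intro B
        exact asm_congr fun j _ => r2_flat x y (B j)
      rw [e3, e3] at a3
      rw [e1] at a1
      rw [e2] at a2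
      have a4 : RR ω (w2 k (fun j => n j x) (fun j => n j y) (fun j => bef x y (D1 j)))
          (w2 k (fun j => n j x) (fun j => n j y) (fun j => bef x y (D' j))) :=
        ω.trans (RR.symm a1) (ω.trans a3 a2)
      exact all_ex (θ := ω) (fun _ _ h => h) hr hb0 hb1 a4
    · intro e
      apply hr
      unfold flp
      rw [if_neg hri]
  -- sorting
  have key : ∀ m ≤ k + 1, ∃ D1 : ℕ → List ℕ, GData k X n D1 ∧ RR ω (asm k B) (gw k n D1) ∧
      ∀ j < m, D1 j = D' j := by
    intro m
    induction m with
    | zero =>
      intro _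
      exact ⟨D, hGD, hBD, fun j hj => absurd hj (Nat.not_lt_zero j)⟩
    | succ m ih =>
      intro hm1
      obtain ⟨D1, hG1, hr1, hj⟩ := ih (by omega)
      have hb := hBub (D1 m) (D' m) ((hG1.perm m).trans (hDp' m).symm)
        ((hDp' m).nodup_iff.2 hXnd)
      have hloop : ∀ l : List ℕ, Relation.ReflTransGen (Exch (D' m)) (D1 m) l →
          GData k X n (Function.update D1 m l) ∧
          RR ω (asm k B) (gw k n (Function.update D1 m l)) := by
        intro l hl
        induction hl with
        | refl =>
          rw [Function.update_eq_self]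
          exact ⟨hG1, hr1⟩
        | tail hd hst ih2 =>
          rename_i l1 l2
          have h1 := hstep _ ih2.1 ih2.2 m (by omega) l2 (by rw [Function.update_self]; exact hst)
          rw [Function.update_idem] at h1
          exact h1
      obtain ⟨h1, h3⟩ := hloop _ hb
      refine ⟨_, h1, h3, fun j hjm => ?_⟩
      by_cases hjm' : j = m
      · subst hjm'
        rw [Function.update_self]
      · rw [Function.update_of_ne hjm']
        exact hj j (by omega)
  obtain ⟨D1, _, hr1, hj⟩ := key (k + 1) le_rfl
  have e : gw k n D1 = gw k n D' := by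
    unfold gw
    exact asm_congr fun j hjk => by rw [hj j (by omega)]
  rw [e] at hr1
  exact ω.trans hr1 (RR.symm hD')

end Pool.Agent.MVO.H39
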