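import Pool.Agent.MVO.StmtsN

/-!
# Squad MVO, row ISO (helper39)
-/

set_option autoImplicit false

namespace Pool.Agent.MVO.H39

open Pool.Agent.MVO Pool.Agent.Helper14_MV Pool.Agent.Helper2_MV

/-- the cut behind the block `t` -/
def cut (t : ℕ) : ℕ → ℕ := fun j => if j ≤ t then 0 else 1

theorem cut_bmap (k t : ℕ) : BMap k 1 (cut t) := by
  refine ⟨?_, ?_⟩
  · intro i j hij _
    unfold cut
    by_cases h1 : j ≤ t
    · rw [if_pos h1, if_pos (by omega)]
    · rw [if_neg h1]
      by_cases h2 : i ≤ t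
      · rw [if_pos h2]; omega
      · rw [if_neg h2]
  · intro i _
    unfold cut
    by_cases h2 : i ≤ t
    · rw [if_pos h2]; omega
    · rw [if_neg h2]

theorem psh_cut0 {k t : ℕ} (ht : t ≤ k) (a : ℕ → ℕ) : psh k (cut t) a 0 = deg t a := by
  unfold psh deg cut
  rw [← Finset.sum_range_add_sum_Ico _ (show t + 1 ≤ k + 1 by omega)]
  rw [Finset.sum_eq_zero (s := Finset.Ico (t + 1) (k + 1)), add_zero]
  · refine Finset.sum_congr rfl fun i hi => ?_
    rw [Finset.mem_range] at hi
    rw [if_pos (show i ≤ t by omega), if_pos rfl]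
  · intro i hi
    rw [Finset.mem_Ico] at hi
    rw [if_neg (show ¬ i ≤ t by omega), if_neg (by omega)]

theorem psh_cut01 {k t : ℕ} (a : ℕ → ℕ) :
    psh k (cut t) a 0 + psh k (cut t) a 1 = deg k a := by
  unfold psh deg
  rw [← Finset.sum_add_distrib]
  refine Finset.sum_congr rfl fun i _ => ?_
  unfold cut
  by_cases h : i ≤ t
  · rw [if_pos h, if_pos rfl, if_neg (by omega), add_zero]
  · rw [if_neg h, if_neg (by omega), if_pos rfl, zero_add]

theorem mw1 (a : ℕ → ℕ) :
    mw 1 a = List.replicate (a 0) 0 ++ 2 :: List.replicate (a 1) 0 := rfl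

theorem mw1_eq {a : ℕ → ℕ} (h : mw 1 a = [0, 2, 0]) : a 0 = 1 ∧ a 1 = 1 := by
  rw [mw1] at h
  have h1 := congrArg List.length h
  rw [List.length_append, List.length_cons, List.length_replicate, List.length_replicate] at h1
  simp only [List.length_cons, List.length_nil] at h1
  generalize a 0 = p at h h1
  generalize a 1 = q at h h1
  have hp : p ≤ 2 := by omega
  interval_cases p
  · exfalso
    simp at h
  · exact ⟨rfl, by omega⟩
  · exfalso
    simp [List.replicate] at h

theorem one_iff {β : FIC} (H : Iso3 β) {k : ℕ} {b z : ℕ → ℕ} (hb : deg k b = 2)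
    (h : L1 β k b z) {t : ℕ} (ht : t ≤ k) (h1 : deg t b = 1) : deg t z = 1 := by
  have h2 := (FC.ofFIC β).push 1 (cut t) (cut_bmap k t) h
  have e0 := psh_cut0 ht b
  have e1 := psh_cut01 (k := k) (t := t) b
  have h3 : mw 1 (psh k (cut t) b) = [0, 2, 0] := by
    rw [mw1, e0, h1, show psh k (cut t) b 1 = 1 by omega]
    rfl
  have h4 : RR β (mw 1 (psh k (cut t) b)) (mw 1 (psh k (cut t) z)) := h2
  rw [h3] at h4
  have h5 := iso_aba H (show (0 : ℕ) ≠ 2 by decide) h4
  have h6 := (mw1_eq h5).1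
  rw [psh_cut0 ht z] at h6
  exact h6

theorem deg_succ (t : ℕ) (a : ℕ → ℕ) : deg (t + 1) a = deg t a + a (t + 1) := by
  unfold deg
  rw [Finset.sum_range_succ _ (t + 1)]

theorem deg_zero (a : ℕ → ℕ) : deg 0 a = a 0 := by
  unfold deg
  simp

theorem deg_mono {s t : ℕ} (h : s ≤ t) (a : ℕ → ℕ) : deg s a ≤ deg t a := by
  unfold deg
  exact Finset.sum_le_sum_of_subset (Finset.range_subset_range.mpr (by omega))

theorem L1_symm {β : FIC} {k : ℕ} {a b : ℕ → ℕ} (h : L1 β k a b) : L1 β k b a := RR.symm h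

theorem deg_two {β : FIC} (hβ : β ≤ thC3) {k : ℕ} {b z : ℕ → ℕ} (hb : deg k b = 2)
    (h : L1 β k b z) : deg k z = 2 := by
  have hc : ∀ a : ℕ → ℕ, (mw k a).count 0 = deg k a := by
    intro a
    unfold mw
    rw [count_asm (show NS k 0 from fun h => by omega)]
    unfold deg
    refine Finset.sum_congr rfl fun j _ => ?_
    simp
  have h1 : thC3.r (FreeMonoid.ofList (mw k b)) (FreeMonoid.ofList (mw k z)) := hβ _ _ h
  have h2 := cnt_thC3 h1 (i := 0) (by
    change (mw k b).count 0 ≤ 2
    rw [hc, hb])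
  have h3 : (mw k z).count 0 = (mw k b).count 0 := h2
  rw [hc, hc, hb] at h3
  exact h3

theorem iso0 : IsoStmt := by
  intro β hβ H k b z hb hb1 h
  have hz := deg_two hβ hb h
  have hiff : ∀ t ≤ k, deg t b = 1 ↔ deg t z = 1 := fun t ht =>
    ⟨one_iff H hb h ht, one_iff H hz (L1_symm h) ht⟩
  -- the first block
  have hex : ∃ t, 1 ≤ deg t b := ⟨k, by omega⟩
  have ht1 := Nat.find_spec hex
  have htk : Nat.find hex ≤ k := Nat.find_min' hex (by omega)
  have hmin : ∀ s < Nat.find hex, deg s b = 0 := by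
    intro s hs
    have := Nat.find_min hex hs
    omega
  have hone : deg (Nat.find hex) b = 1 := by
    rcases Nat.eq_zero_or_pos (Nat.find hex) with h0 | h0
    · rw [h0] at ht1 ⊢
      rw [deg_zero] at ht1 ⊢
      have := hb1 0 (by omega)
      omega
    · obtain ⟨s, hs⟩ := Nat.exists_eq_succ_of_ne_zero h0.ne'
      have h1 := hmin s (by omega)
      have h2 := hb1 (s + 1) (by omega)
      rw [hs, Nat.succ_eq_add_one, deg_succ] at ht1 ⊢
      omega
  have hzone : deg (Nat.find hex) z = 1 := (hiff _ htk).mp hone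
  have hall : ∀ t ≤ k, deg t z = deg t b := by
    intro t ht
    have hbt : deg t b ≤ 2 := by rw [← hb]; exact deg_mono ht b
    have hzt : deg t z ≤ 2 := by rw [← hz]; exact deg_mono ht z
    by_cases h1 : deg t b = 1
    · rw [h1, (hiff t ht).mp h1]
    · have h2 : deg t z ≠ 1 := fun h => h1 ((hiff t ht).mpr h)
      rcases Nat.lt_or_ge t (Nat.find hex) with h3 | h3
      · have h4 := hmin t h3
        have h5 := deg_mono h3.le z
        omega
      · have h4 := deg_mono h3 z
        have h5 := deg_mono h3 b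
        omega
  intro j hj
  rcases Nat.eq_zero_or_pos j with h0 | h0
  · have := hall 0 (by omega)
    rw [deg_zero, deg_zero] at this
    rw [h0]; exact this
  · obtain ⟨s, hs⟩ := Nat.exists_eq_succ_of_ne_zero h0.ne'
    have h1 := hall s (by omega)
    have h2 := hall (s + 1) (by omega)
    rw [deg_succ, deg_succ] at h2
    rw [hs, Nat.succ_eq_add_one]
    omega

theorem iso (_ : WblStmt) : IsoStmt := iso0

end Pool.Agent.MVO.H39
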