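import Pool.Agent.MVO.StmtsL

/-!
# Squad MVO, row LWD (helper39)
-/

set_option autoImplicit false

namespace Pool.Agent.MVO.H39

open Pool.Agent.MVO

theorem ep_mono {R : FC} {m m' d : ℕ} (h : EP R m d) (hm : m' ≤ m) : EP R m' d :=
  fun k a b ha hb h1 h2 => h k a b ha hb (h1.trans hm) (h2.trans hm)

theorem chain {R S : FC} {k : ℕ} {a b : ℕ → ℕ} (h : Relation.ReflTransGen (Stp R S k) a b)
    (hne : par k a ≠ par k b) : ∃ z z' : ℕ → ℕ, deg k z = deg k a ∧ deg k z' = deg k a ∧
      par k z = par k a ∧ par k z' ≠ par k a ∧ (R.R k z z' ∨ S.R k z z') := by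
  induction h using Relation.ReflTransGen.head_induction_on with
  | refl => exact absurd rfl hne
  | head h1 _ ih =>
    rename_i x y hxy
    by_cases h2 : par k x = par k y
    · obtain ⟨z, z', h3, h4, h5, h6, h7⟩ := ih (by rw [← h2]; exact hne)
      exact ⟨z, z', h3.trans h1.1.symm, h4.trans h1.1.symm, h5.trans h2.symm,
        fun h => h6 (h.trans h2), h7⟩
    · exact ⟨x, y, rfl, h1.1.symm, rfl, fun h => h2 h.symm, h1.2⟩

theorem stp_symm {R S : FC} {k : ℕ} {x y : ℕ → ℕ} (h : Stp R S k x y) : Stp R S k y x := by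
  refine ⟨h.1.symm, ?_⟩
  rcases h.2 with h2 | h2
  · exact Or.inl (R.symm h2)
  · exact Or.inr (S.symm h2)

theorem rtg_symm {R S : FC} {k : ℕ} {x y : ℕ → ℕ} (h : Relation.ReflTransGen (Stp R S k) x y) :
    Relation.ReflTransGen (Stp R S k) y x := by
  induction h with
  | refl => exact Relation.ReflTransGen.refl
  | tail _ h ih => exact Relation.ReflTransGen.head (stp_symm h) ih

theorem half {R S T U : FC} (odr : OdrStmt) (hR : O4 R) (hS : O4 S) (hT : O4 T)
    (hRU : FLe R U) (hSTU : ∀ k a b, S.R k a b → T.R k a b → U.R k a b) {k : ℕ}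
    {a a' : ℕ → ℕ} (hd3 : 3 ≤ deg k a) (hd : deg k a = deg k a') (hTaa : T.R k a a')
    (hc : Relation.ReflTransGen (Stp R S k) a a') (hne : par k a ≠ par k a')
    (hle : (par k a').card ≤ (par k a).card) : U.R k a a' := by
  have hTE := odr T k a a' hT hd3 hd hTaa hne
  rw [max_eq_left hle] at hTE
  obtain ⟨z, z', h1, h2, h3, h4, h5⟩ := chain hc hne
  have h6 : par k z ≠ par k z' := by rw [h3]; exact fun h => h4 h.symm
  have hcard : (par k a).card ≤ max (par k z).card (par k z').card := by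
    rw [h3]; exact le_max_left _ _
  rcases h5 with h5 | h5
  · have h7 := ep_mono (odr R k z z' hR (by rw [h1]; exact hd3) (h1.trans h2.symm) h5 h6) hcard
    rw [h1] at h7
    exact hRU k a a' (h7 k a a' rfl hd.symm (le_refl _) hle)
  · have h7 := ep_mono (odr S k z z' hS (by rw [h1]; exact hd3) (h1.trans h2.symm) h5 h6) hcard
    rw [h1] at h7
    exact hSTU k a a' (h7 k a a' rfl hd.symm (le_refl _) hle) hTaa

theorem lwd (lwa : LwaStmt) (oda : OdaStmt) (odr : OdrStmt) : LwdStmt := by
  intro R S T U hR hS hT hU hRT hRU hSTU k a a' h2 hd hTaa hc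
  by_cases hd2 : deg k a = 2
  · exact lwa R S T U hRT hRU hSTU k a a' (Or.inr hd2) h2 hd hTaa hc
  · have hd3 : 3 ≤ deg k a := by omega
    by_cases hpar : par k a = par k a'
    · exact oda U k a a' hU hd3 hd hpar
    · rcases le_total (par k a').card (par k a).card with hle | hle
      · exact half odr hR hS hT hRU hSTU hd3 hd hTaa hc hpar hle
      · refine U.symm (half odr hR hS hT hRU hSTU (by rw [← hd]; exact hd3) hd.symm
          (T.symm hTaa) ?_ (fun h => hpar h.symm) hle)
        exact rtg_symm hc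

end Pool.Agent.MVO.H39
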