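import Pool.Agent.MVO.StmtsV

/-!
# Squad MVO, row MVV (helper39)
-/

set_option autoImplicit false

namespace Pool.Agent.MVO.H39

open Pool.Agent.MVO Pool.Agent.Helper14_MV Pool.Agent.Helper2_MV

theorem mvv : MvvStmt := by
  intro β hF u
  induction u with
  | nil => intro p q y _; exact RR.refl _
  | cons c u ih =>
    intro p q y hc
    by_cases hcy : c = y
    · subst hcy
      have h1 := ih (p ++ [c]) q c (by
        intro d hd
        have h2 := hc d (List.mem_cons_of_mem _ hd)
        simp only [List.count_append, List.count_cons, List.count_nil] at h2 ⊢
        omega)
      simpa only [List.append_assoc, List.cons_append, List.nil_append] using h1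
    · have hmem : c ∈ p ++ (u ++ q) := by
        have h2 := hc c List.mem_cons_self
        by_contra hcon
        have h3 : (p ++ (u ++ q)).count c = 0 := List.count_eq_zero.mpr hcon
        simp only [List.count_append, List.count_cons, beq_iff_eq, List.cons_append,
          if_neg (Ne.symm hcy), if_true] at h2 h3
        omega
      have h1 : RR β (p ++ y :: c :: (u ++ y :: q)) (p ++ c :: y :: (u ++ y :: q)) := by
        refine hF p u q c y hcy hmem ?_
        intro d hd
        have h2 := hc d (List.mem_cons_of_mem _ hd)
        simpa only [List.cons_append] using h2
      have h3 := ih (p ++ [c]) q y (by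
        intro d hd
        have h2 := hc d (List.mem_cons_of_mem _ hd)
        simp only [List.count_append, List.count_cons, List.count_nil, List.cons_append] at h2 ⊢
        omega)
      have h4 : RR β (p ++ c :: y :: (u ++ y :: q)) (p ++ (c :: u ++ y :: y :: q)) := by
        simpa only [List.append_assoc, List.cons_append, List.nil_append] using h3
      exact β.trans h1 h4

end Pool.Agent.MVO.H39
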