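import Pool.Agent.Helper51_MVO.NCE

/-!
# Squad MVO, row NCF (helper39): third clause of class a over `O2`
-/

set_option autoImplicit false

namespace Pool.Agent.MVO.H39F

open Pool.Agent.MVO Pool.Agent.MVO.H51 Pool.Agent.Helper14_MV Pool.Agent.Helper2_MV

section
variable (R : FC)

theorem kut0 {x x' : ℕ → ℕ} (h : R.R 2 x x') :
    R.R 1 (v2 (x 0) (x 1 + x 2)) (v2 (x' 0) (x' 1 + x' 2)) := by
  refine pushR R 1 (v3 0 1 1) (bmap3 (by omega) (by omega) (by omega)) h ?_ ?_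
  · intro j hj; interval_cases j <;> simp [psh2, v3, v2]
  · intro j hj; interval_cases j <;> simp [psh2, v3, v2]

theorem kut1 {x x' : ℕ → ℕ} (h : R.R 2 x x') :
    R.R 1 (v2 (x 0 + x 1) (x 2)) (v2 (x' 0 + x' 1) (x' 2)) := by
  refine pushR R 1 (v3 0 0 1) (bmap3 (by omega) (by omega) (by omega)) h ?_ ?_
  · intro j hj; interval_cases j <;> simp [psh2, v3, v2]
  · intro j hj; interval_cases j <;> simp [psh2, v3, v2]

theorem kl_O1 (hO1 : O1 R) (hO2 : O2 R) (hO3 : ¬ O3 R) {x x' : ℕ → ℕ}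
    (h : R.R 2 x x') (hd : deg 2 x = 3) (hd' : deg 2 x' = 3) (hx : 1 ≤ x 2) : 1 ≤ x' 2 := by
  by_contra hc
  have h3 : x' 2 = 0 := by omega
  rw [deg2] at hd hd'
  have h1 := kut1 R h
  have e : x' 0 + x' 1 = 3 := by omega
  rw [e, h3] at h1
  have h2 := two R hO1 hO2 (p := x 0 + x 1) (q := x 2) (by omega) hx
  have h4 := two R hO1 hO2 (p := 2) (q := 1) (by omega) (by omega)
  exact hO3 (R.trans (R.trans (R.symm h1) h2) (R.symm h4))

theorem kl_N1 (hO1 : ¬ O1 R) (hO2 : O2 R) (hO3 : ¬ O3 R) {x x' : ℕ → ℕ}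
    (h : R.R 2 x x') (hd' : deg 2 x' = 3) (hx : x 0 ≤ 1) (hx1 : x 0 + x 1 = 2)
    (hx2 : x 2 = 1) : x' 0 ≤ 1 ∧ x' 0 + x' 1 = 2 ∧ x' 2 = 1 := by
  rw [deg2] at hd'
  have h1 := kut1 R h
  rw [hx1, hx2] at h1
  obtain ⟨a1, a2⟩ := iso21 R hO1 hO2 hO3 (by omega) h1
  have h0 := kut0 R h
  refine ⟨?_, a1, a2⟩
  by_contra hc
  have e3 : x' 0 = 2 := by omega
  have e4 : x' 1 + x' 2 = 1 := by omega
  rw [e3, e4] at h0
  obtain ⟨a5, -⟩ := iso21 R hO1 hO2 hO3 (by omega) (R.symm h0)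
  omega

theorem kl_T1 (hO2 : O2 R) (hO3 : ¬ O3 R) (hJ : ¬ JJ R) {x x' : ℕ → ℕ} (h : R.R 2 x x')
    (hd' : deg 2 x' = 3) (h0 : x 0 = 1) (h1 : x 1 = 1) (h2 : x 2 = 1) :
    x' 0 = 1 ∧ x' 1 = 1 ∧ x' 2 = 1 := by
  have hd : deg 2 x = 3 := by rw [deg2]; omega
  have hm : R.R 2 (v3 1 1 1) (v3 (x' 0) (x' 1) (x' 2)) := by
    refine R.ext ?_ ?_ h
    · intro j hj; interval_cases j
      · exact h0
      · exact h1
      · exact h2
    · intro j hj; interval_cases j <;> rfl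
  by_cases hO1 : O1 R
  · have a3 := kl_O1 R hO1 hO2 hO3 h hd hd' (by omega)
    rw [deg2] at hd'
    have b1 : x' 0 = 1 ∧ x' 1 = 1 := by
      by_contra hc
      exact hJ (R.trans hm (three R hO1 hO2 (by omega) a3 hc))
    exact ⟨b1.1, b1.2, by omega⟩
  · obtain ⟨a0, a1, a3⟩ := kl_N1 R hO1 hO2 hO3 h hd' (by omega) (by omega) h2
    have b0 : x' 0 = 1 := by
      by_contra hc
      have c0 : x' 0 = 0 := by omega
      have c1 : x' 1 = 2 := by omega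
      rw [c0, c1, a3] at hm
      exact hJ hm
    exact ⟨b0, by omega, a3⟩

end

/-! ### the two sets of pairs of types -/

/-- the first set -/
def KA (x y : ℕ → ℕ) : Prop :=
  (x 0 = 1 ∧ x 1 = 1 ∧ x 2 = 1) ∧ (y 0 = 1 ∧ y 1 = 0 ∧ y 2 = 1)

/-- the second set -/
def KB (P : Prop) (x y : ℕ → ℕ) : Prop :=
  (y 0 = 1 ∧ y 1 = 0 ∧ y 2 = 1) ∧ x 0 + x 1 + x 2 = 3 ∧ 1 ≤ x 2 ∧
    (P ∨ (x 0 ≤ 1 ∧ x 0 + x 1 = 2 ∧ x 2 = 1))

theorem KA_ext : TExt 2 KA := by
  intro a a' b b' h h' hT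
  unfold KA at hT ⊢
  rw [← h 0 (by omega), ← h 1 (by omega), ← h 2 (by omega),
    ← h' 0 (by omega), ← h' 1 (by omega), ← h' 2 (by omega)]
  exact hT

theorem KB_ext (P : Prop) : TExt 2 (KB P) := by
  intro a a' b b' h h' hT
  unfold KB at hT ⊢
  rw [← h 0 (by omega), ← h 1 (by omega), ← h 2 (by omega),
    ← h' 0 (by omega), ← h' 1 (by omega), ← h' 2 (by omega)]
  exact hT

theorem KA_deg : TDeg 2 KA := by
  intro a b h
  unfold KA at h
  rw [deg2, deg2]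
  omega

theorem KB_deg (P : Prop) : TDeg 2 (KB P) := by
  intro a b h
  unfold KB at h
  rw [deg2, deg2]
  omega

theorem KA_last : TLast 2 2 KA := by
  intro a b h
  have h1 := KA_deg a b h
  unfold KA at h
  exact ⟨by omega, by omega, sp_max (by omega), sp_max (by omega)⟩

theorem KB_last (P : Prop) : TLast 2 2 (KB P) := by
  intro a b h
  have h1 := KB_deg P a b h
  unfold KB at h
  exact ⟨by omega, by omega, sp_max (by omega), sp_max (by omega)⟩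

theorem p012 (x : ℕ → ℕ) : psh 2 (v3 0 1 2) x = v3 (x 0) (x 1) (x 2) := by
  funext j
  rw [psh2]
  match j with
  | 0 => simp [v3]
  | 1 => simp [v3]
  | 2 => simp [v3]
  | (n + 3) => simp [v3]

/-! ### the finite checks -/

theorem fA : ∀ p q r : Fin 3, p ≤ q → q ≤ r →
    ¬ (((if p.1 = 0 then 0 else 0) + (if q.1 = 0 then 2 else 0) + (if r.1 = 0 then 1 else 0) = 1) ∧
      ((if p.1 = 1 then 0 else 0) + (if q.1 = 1 then 2 else 0) + (if r.1 = 1 then 1 else 0) = 1) ∧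
      ((if p.1 = 2 then 0 else 0) + (if q.1 = 2 then 2 else 0) + (if r.1 = 2 then 1 else 0) = 1)) := by
  decide

theorem fB : ∀ p q r : Fin 3, p ≤ q → q ≤ r →
    ((1 ≤ (if p.1 = 2 then 0 else 0) + (if q.1 = 2 then 2 else 0) + (if r.1 = 2 then 1 else 0)) ↔
      (1 ≤ (if p.1 = 2 then 1 else 0) + (if q.1 = 2 then 1 else 0) + (if r.1 = 2 then 1 else 0))) ∧
    (((if p.1 = 0 then 0 else 0) + (if q.1 = 0 then 2 else 0) + (if r.1 = 0 then 1 else 0) ≤ 1 ∧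
      ((if p.1 = 0 then 0 else 0) + (if q.1 = 0 then 2 else 0) + (if r.1 = 0 then 1 else 0)) +
      ((if p.1 = 1 then 0 else 0) + (if q.1 = 1 then 2 else 0) + (if r.1 = 1 then 1 else 0)) = 2 ∧
      (if p.1 = 2 then 0 else 0) + (if q.1 = 2 then 2 else 0) + (if r.1 = 2 then 1 else 0) = 1) ↔
     ((if p.1 = 0 then 1 else 0) + (if q.1 = 0 then 1 else 0) + (if r.1 = 0 then 1 else 0) ≤ 1 ∧
      ((if p.1 = 0 then 1 else 0) + (if q.1 = 0 then 1 else 0) + (if r.1 = 0 then 1 else 0)) +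
      ((if p.1 = 1 then 1 else 0) + (if q.1 = 1 then 1 else 0) + (if r.1 = 1 then 1 else 0)) = 2 ∧
      (if p.1 = 2 then 1 else 0) + (if q.1 = 2 then 1 else 0) + (if r.1 = 2 then 1 else 0) = 1)) ∧
    (((if p.1 = 0 then 0 else 0) + (if q.1 = 0 then 2 else 0) + (if r.1 = 0 then 1 else 0)) +
      ((if p.1 = 1 then 0 else 0) + (if q.1 = 1 then 2 else 0) + (if r.1 = 1 then 1 else 0)) +
      ((if p.1 = 2 then 0 else 0) + (if q.1 = 2 then 2 else 0) + (if r.1 = 2 then 1 else 0)) = 3) ∧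
    (((if p.1 = 0 then 1 else 0) + (if q.1 = 0 then 1 else 0) + (if r.1 = 0 then 1 else 0)) +
      ((if p.1 = 1 then 1 else 0) + (if q.1 = 1 then 1 else 0) + (if r.1 = 1 then 1 else 0)) +
      ((if p.1 = 2 then 1 else 0) + (if q.1 = 2 then 1 else 0) + (if r.1 = 2 then 1 else 0)) = 3) := by
  decide

/-! ### the row -/

/-- NCF. -/
theorem ncf (hLNN : LnnStmt) (hGTB : GtbStmt) (hGTN : GtnStmt) (hGTS : GtsStmt)
    (hGTK : GtkStmt) (hGAA : GaaStmt) (hRGA : RgaStmt) (hWUB : WubStmt) (_hOAA : OaaStmt)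
    (_hOAR : OarStmt) (_hOPF : OpfStmt) (_hOCR : OcrStmt) (hISO : IsoStmt) (hFAA : FaaStmt) :
    NcfStmt := by
  intro β H hO2 hO3
  by_contra hcon
  rw [not_or, not_or] at hcon
  obtain ⟨hJ, hv, hh⟩ := hcon
  have hNC : NC2 β := by
    intro h
    have := iso_ab H.iso (a := 0) (b := 1) (by decide) h
    simp at this
  obtain ⟨-, F2, -, F4, -, -⟩ := hFAA β H.cl
  -- degrees
  have hdeg : ∀ x x' : ℕ → ℕ, deg 2 x = 3 → L1 β 2 x x' →
      deg 2 x' = 3 ∨ (FC.ofFIC β).R 2 x (sg 0 3) := by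
    intro x x' hd h
    by_cases hd' : deg 2 x' = 3
    · exact Or.inl hd'
    · right
      have h1 := (hWUB (FC.ofFIC β) hO2 (cent_v H.ce) 2 x x' (by omega) (by omega) h).1 0
        (by omega)
      rwa [hd] at h1
  have hsg : deg 2 (sg 0 3) = 3 := by simp [deg2, sg]
  have hsg0 : sg 0 3 0 = 3 := by simp [sg]
  have hsg2 : sg 0 3 2 = 0 := by simp [sg]
  have hdegA : ∀ x x' : ℕ → ℕ, x 0 = 1 ∧ x 1 = 1 ∧ x 2 = 1 → L1 β 2 x x' →
      deg 2 x' = 3 := by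
    intro x x' hx h
    rcases hdeg x x' (by rw [deg2]; omega) h with h1 | h1
    · exact h1
    · have h2 := kl_T1 (FC.ofFIC β) hO2 hO3 hJ h1 hsg hx.1 hx.2.1 hx.2.2
      omega
  have hy : ∀ y y' : ℕ → ℕ, y 0 = 1 ∧ y 1 = 0 ∧ y 2 = 1 → L1 β 2 y y' →
      y' 0 = 1 ∧ y' 1 = 0 ∧ y' 2 = 1 := by
    intro y y' hy h
    have h1 := hISO β H.th H.iso 2 y y' (by rw [deg2]; omega) (by
      intro j hj
      interval_cases j <;> omega) h
    rw [h1 0 (by omega), h1 1 (by omega), h1 2 (by omega)]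
    exact hy
  -- closure
  have clA : ∀ a b a' b', KA a b → L1 β 2 a a' → L1 β 2 b b' → KA a' b' := by
    intro a b a' b' hT ha hb
    refine ⟨?_, hy b b' hT.2 hb⟩
    exact kl_T1 (FC.ofFIC β) hO2 hO3 hJ ha (hdegA a a' hT.1 ha) hT.1.1 hT.1.2.1 hT.1.2.2
  have clB : ∀ a b a' b', KB (O1 (FC.ofFIC β)) a b → L1 β 2 a a' → L1 β 2 b b' →
      KB (O1 (FC.ofFIC β)) a' b' := by
    intro a b a' b' hT ha hb
    obtain ⟨t1, t2, t3, t4⟩ := hT
    refine ⟨hy b b' t1 hb, ?_⟩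
    have hd : deg 2 a = 3 := by rw [deg2]; exact t2
    by_cases hO1 : O1 (FC.ofFIC β)
    · have hd' : deg 2 a' = 3 := by
        rcases hdeg a a' hd ha with h1 | h1
        · exact h1
        · have h2 := kl_O1 (FC.ofFIC β) hO1 hO2 hO3 h1 hd hsg t3
          omega
      refine ⟨by rw [← deg2]; exact hd', ?_, Or.inl hO1⟩
      exact kl_O1 (FC.ofFIC β) hO1 hO2 hO3 ha hd hd' t3
    · rcases t4 with t4 | t4
      · exact absurd t4 hO1
      · have hd' : deg 2 a' = 3 := by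
          rcases hdeg a a' hd ha with h1 | h1
          · exact h1
          · have h2 := kl_N1 (FC.ofFIC β) hO1 hO2 hO3 h1 hsg t4.1 t4.2.1 t4.2.2
            omega
        have h2 := kl_N1 (FC.ofFIC β) hO1 hO2 hO3 ha hd' t4.1 t4.2.1 t4.2.2
        exact ⟨by rw [← deg2]; exact hd', by omega, Or.inr h2⟩
  -- no exchange
  have norm : ∀ x y : ℕ → ℕ, x 0 + x 1 + x 2 = 3 → 1 ≤ x 2 → y 0 = 1 ∧ y 1 = 0 ∧ y 2 = 1 →
      Bt β 2 x y 2 → Bt β 2 (v3 (x 0) (x 1) (x 2)) (v3 1 0 1) 2 := by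
    intro x y hx hx2 hy hB
    have h1 := F4 2 2 (v3 0 1 2) x y 2 (bmap3 (by omega) (by omega) (by omega))
      (by rw [deg2]; omega) (by rw [deg2]; omega) (by omega) (sp_max (by omega))
      (sp_max (by omega)) hB
    rw [p012, p012, hy.1, hy.2.1, hy.2.2] at h1
    exact h1
  have noA : ∀ a b, KA a b → ¬ Bt β 2 a b 2 := by
    intro a b hT hB
    obtain ⟨⟨x0, x1, x2⟩, t2⟩ := hT
    have h1 := norm a b (by omega) (by omega) t2 hB
    rw [x0, x1, x2] at h1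
    exact hh h1
  have noB : ∀ a b, KB (O1 (FC.ofFIC β)) a b → ¬ Bt β 2 a b 2 := by
    intro a b hT hB
    obtain ⟨t1, t2, t3, t4⟩ := hT
    have h1 := norm a b t2 t3 t1 hB
    by_cases h11 : a 0 = 1 ∧ a 1 = 1
    · have e2 : a 2 = 1 := by omega
      rw [h11.1, h11.2, e2] at h1
      exact hh h1
    · rcases t4 with t4 | t4
      · exact hv (F2 2 _ _ _ _
          ((FC.ofFIC β).symm (three (FC.ofFIC β) t4 hO2 t2 t3 h11)) h1)
      · have e0 : a 0 = 0 := by omega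
        have e1 : a 1 = 2 := by omega
        rw [e0, e1, t4.2.2] at h1
        exact hv h1
  have leA : β ≤ GT 2 KA := hGTB β H.th hNC H.cl 2 2 KA KA_ext KA_last clA noA
  have leB : β ≤ GT 2 (KB (O1 (FC.ofFIC β))) :=
    hGTB β H.th hNC H.cl 2 2 _ (KB_ext _) (KB_last _) clB noB
  -- the exchange in `G1`
  have x1 : Bt (GT 2 KA) 2 (v3 0 2 1) (v3 1 0 1) 2 := by
    refine hGTS 2 KA KA_ext KA_deg 2 _ _ (by simp [deg2, v3]) (by simp [deg2, v3]) ?_ 2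
    intro f hf hT
    have h1 := hT.1
    rw [psh2, psh2, psh2] at h1
    exact fA ⟨f 0, by have := hf.le 0 (by omega); omega⟩
      ⟨f 1, by have := hf.le 1 (by omega); omega⟩ ⟨f 2, by have := hf.le 2 (by omega); omega⟩
      (hf.mono 0 1 (by omega) (by omega)) (hf.mono 1 2 (by omega) (by omega)) h1
  -- the type change in `G2`
  have x2 : L1 (GT 2 (KB (O1 (FC.ofFIC β)))) 2 (v3 0 2 1) (v3 1 1 1) := by
    refine hGTK 2 _ (KB_ext _) (KB_deg _) 2 _ _ (by simp [deg2, v3]) (by simp [deg2, v3])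
      (by simp [v3]) (by simp [v3]) ?_
    intro f hf b
    have key := fB ⟨f 0, by have := hf.le 0 (by omega); omega⟩
      ⟨f 1, by have := hf.le 1 (by omega); omega⟩ ⟨f 2, by have := hf.le 2 (by omega); omega⟩
      (hf.mono 0 1 (by omega) (by omega)) (hf.mono 1 2 (by omega) (by omega))
    unfold KB
    rw [psh2, psh2, psh2, psh2, psh2, psh2]
    constructor
    · rintro ⟨h1, h2, h3, h4⟩
      exact ⟨h1, key.2.2.2, key.1.mp h3, h4.imp id key.2.1.mp⟩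
    · rintro ⟨h1, h2, h3, h4⟩
      exact ⟨h1, key.2.2.1, key.1.mpr h3, h4.imp id key.2.1.mpr⟩
  have fin := hLNN β H.th hNC (hGAA β H.cl) (hRGA β H.cl) H.md _ _ leA leB 2 (v3 0 2 1)
    (v3 1 1 1) (v3 1 0 1) 2 (by simp [deg2, v3]) (by simp [deg2, v3]) (by simp [deg2, v3])
    (by omega) x1 x2
  rcases fin with fin | fin
  · exact hGTN 2 2 KA KA_ext KA_last (by omega) _ _ (by simp [KA, v3]) fin
  · exact hGTN 2 2 _ (KB_ext _) (KB_last _) (by omega) _ _ (by simp [KB, v3]) fin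

end Pool.Agent.MVO.H39F
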