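import Pool.Agent.Helper39_MVO.NPL

/-!
# Squad MVO, row NPC (helper39)
-/

set_option autoImplicit false

namespace Pool.Agent.MVO.H39

open Pool.Agent.MVO Pool.Agent.Helper14_MV Pool.Agent.Helper2_MV

def gXc (x y z : ℕ) : ℕ :=
  if z = 3 then 3 else if x = 0 then 1 else if x = 1 ∧ y = 1 then 2 else 0

def gam2 (n : ℕ) : ℕ := if n = 2 then 0 else n

def gYc (x y z : ℕ) : ℕ := gam2 (gXc x y z)

def gZc (x y z : ℕ) : ℕ :=
  if x = 2 then (if y = 1 then 2 else 3) else if z = 1 then 1 else 0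

def cc (s : ℕ) : ℕ := if s = 1 then 1 else if s = 3 then 3 else 0

theorem npc (ecb : EcbStmt) (eck : EckStmt) : NpcStmt := by
  intro β hβ hnc hC hO h12
  have n03 : ¬ L1 β 1 (v2 3 0) (v2 0 3) := fun h => hO.n2 (L1_trans (L1_symm h12) h)
  have n13 : ¬ L1 β 1 (v2 2 1) (v2 0 3) := fun h => hO.n4 ⟨L1_symm h, L1_symm h12⟩
  have n1 : ¬ L1 β 1 (v2 2 1) (v2 1 2) := hO.n1
  have n2 : ¬ L1 β 1 (v2 1 2) (v2 0 3) := hO.n2
  have n3 : ¬ L1 β 1 (v2 3 0) (v2 2 1) := hO.n3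
  have hc : ∀ s ≤ 3, ∀ t ≤ 3, L1 β 1 (v2 (3 - s) s) (v2 (3 - t) t) → cc s = cc t := by
    intro s hs t ht h
    interval_cases s <;> interval_cases t <;> first
      | rfl
      | exact absurd h n03
      | exact absurd h n13
      | exact absurd h n1
      | exact absurd h n2
      | exact absurd h n3
      | exact absurd (L1_symm h) n03
      | exact absurd (L1_symm h) n13
      | exact absurd (L1_symm h) n1
      | exact absurd (L1_symm h) n2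
      | exact absurd (L1_symm h) n3
  have hh : ∀ s ≤ 3, ∀ p q, 4 ≤ p + q → L1 β 1 (v2 (3 - s) s) (v2 p q) → False := by
    intro s hs p q hpq h
    exact n03 (three_central hC (by omega) hpq h)
  have hX : β ≤ GE 2 (c3 gXc) 9 := by
    refine ecb β hβ hnc 2 (c3 gXc) 9 (c3_ext _) ?_ ?_
    · exact cls_of_two gXc cc hc (by decide)
    · exact high_of_two gXc 9 (fun _ => False) hh (fun _ _ _ h => h.elim)
  have hXY : GE 2 (c3 gXc) 9 ≤ GE 2 (c3 gYc) 9 :=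
    ge_le_ge gam2 (fun _ _ _ => rfl) rfl
  have hZ : β ≤ GE 2 (c3 gZc) 9 := by
    refine ecb β hβ hnc 2 (c3 gZc) 9 (c3_ext _) ?_ ?_
    · exact cls_of_two gZc cc hc (by decide)
    · exact high_of_two gZc 9 (fun _ => False) hh (fun _ _ _ h => h.elim)
  have x1 : L1 (GE 2 (c3 gXc) 9) 1 (v2 3 0) (v2 2 1) :=
    eck2 eck gXc 9 3 0 2 1 rfl rfl (by decide)
  have x2 : L1 (GE 2 (c3 gXc) 9) 2 (v3 0 3 0) (v3 0 2 1) := push2 (i := 1) (j := 2)
    (by omega) (by omega) x1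
  have y1 : L1 (GE 2 (c3 gYc) 9) 2 (v3 3 0 0) (v3 1 1 1) :=
    eck3 eck gYc 9 3 0 0 1 1 1 rfl rfl (by decide)
  have z1 : L1 (GE 2 (c3 gZc) 9) 1 (v2 0 3) (v2 3 0) :=
    eck2 eck gZc 9 0 3 3 0 rfl rfl (by decide)
  have z2 : L1 (GE 2 (c3 gZc) 9) 2 (v3 0 3 0) (v3 3 0 0) := push2 (i := 0) (j := 1)
    (by omega) (by omega) z1
  have z3 : L1 (GE 2 (c3 gZc) 9) 2 (v3 1 1 1) (v3 0 2 1) :=
    eck3 eck gZc 9 1 1 1 0 2 1 rfl rfl (by decide)
  refine fail (a := v3 3 0 0) hX hZ (FIC.le_trans' hX hXY) hXY ?_ ?_ ?_ ?_ y1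
  · refine ge_le_P (c := 2) (by decide) rfl ?_
    intro x y z hs h
    unfold gXc at h
    split_ifs at h
    all_goals omega
  · refine inf_le_P (c := 1) (c' := 0) (by decide) rfl rfl ?_
    intro x y z hs h h'
    unfold gZc at h
    unfold gYc gam2 gXc at h'
    split_ifs at h h'
    all_goals omega
  · rintro ⟨h, -, -⟩
    exact absurd h (by decide)
  · have s1 := FIC.le_sup_left (GE 2 (c3 gXc) 9) (GE 2 (c3 gZc) 9)
    have s2 := FIC.le_sup_right (GE 2 (c3 gXc) 9) (GE 2 (c3 gZc) 9)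
    have a1 := s2 _ _ (L1_symm z2)
    have a2 := s1 _ _ x2
    have a3 := s2 _ _ (L1_symm z3)
    exact (FIC.sup (GE 2 (c3 gXc) 9) (GE 2 (c3 gZc) 9)).trans a1
      ((FIC.sup (GE 2 (c3 gXc) 9) (GE 2 (c3 gZc) 9)).trans a2 a3)

end Pool.Agent.MVO.H39
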