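import Pool.Agent.MVO.StmtsL

/-!
# Squad MVO, row OCA (helper39)
-/

set_option autoImplicit false

namespace Pool.Agent.MVO.H39

open Pool.Agent.MVO

/-- move one occurrence from the block `q` to the block `p` -/
def mv (p q : ℕ) (a : ℕ → ℕ) : ℕ → ℕ :=
  fun j => if j = p then a p + 1 else if j = q then a q - 1 else a j

theorem mv_add {p q : ℕ} {a : ℕ → ℕ} (hpq : p < q) (hq : 1 ≤ a q) (j : ℕ) :
    mv p q a j + (if j = q then 1 else 0) = a j + (if j = p then 1 else 0) := by
  unfold mv
  by_cases h1 : j = p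
  · rw [if_pos h1, if_neg (by omega), if_pos h1, h1]
  · rw [if_neg h1, if_neg h1]
    by_cases h2 : j = q
    · rw [if_pos h2, if_pos h2, h2]; omega
    · rw [if_neg h2, if_neg h2]

theorem step {R : FC} (h3 : O3 R) {k p q : ℕ} {a : ℕ → ℕ} (hpq : p < q) (hqk : q ≤ k)
    (hp : 2 ≤ a p) (hq : 1 ≤ a q) : R.R k a (mv p q a) := by
  have hf : BMap 1 k (fun i => if i = 0 then p else q) := by
    refine ⟨?_, ?_⟩
    · intro i j hij _
      by_cases hi : i = 0
      · by_cases hj : j = 0
        · simp only [hi, hj, if_true, le_refl]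
        · simp only [hi, hj, if_true, if_false]; omega
      · have hj : j ≠ 0 := by omega
        simp only [hi, hj, if_false, le_refl]
    · intro i _
      by_cases hi : i = 0
      · simp only [hi, if_true]; omega
      · simp only [hi, if_false]; exact hqk
  have h1 := R.add (fun j => if j = p then a p - 2 else if j = q then a q - 1 else a j)
    (R.push k (fun i => if i = 0 then p else q) hf h3)
  refine R.symm (R.ext ?_ ?_ h1)
  · intro j _
    unfold psh v2 mv
    simp only [Finset.sum_range_succ, Finset.sum_range_zero, zero_add, if_true, one_ne_zero,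
      if_false]
    by_cases hj : j = p
    · rw [if_pos hj, if_pos hj, if_pos hj.symm, if_neg (by omega)]; omega
    · rw [if_neg hj, if_neg hj, if_neg (Ne.symm hj)]
      by_cases hj2 : j = q
      · rw [if_pos hj2, if_pos hj2.symm]; omega
      · rw [if_neg hj2, if_neg (Ne.symm hj2)]; omega
  · intro j _
    unfold psh v2
    simp only [Finset.sum_range_succ, Finset.sum_range_zero, zero_add, if_true, one_ne_zero,
      if_false]
    by_cases hj : j = p
    · rw [if_pos hj, if_pos hj.symm, if_neg (by omega), hj]; omega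
    · rw [if_neg hj, if_neg (Ne.symm hj)]
      by_cases hj2 : j = q
      · rw [if_pos hj2, if_pos hj2.symm, hj2]; omega
      · rw [if_neg hj2, if_neg (Ne.symm hj2)]; omega

/-- all occurrences behind the block `p` are moved to `p` -/
def col (k p : ℕ) (a : ℕ → ℕ) : ℕ → ℕ :=
  fun j => if j < p then a j else if j = p then ∑ q ∈ Finset.Icc p k, a q else 0

theorem to_col {R : FC} (h3 : O3 R) {k p : ℕ} (hpk : p ≤ k) : ∀ (N : ℕ) (a : ℕ → ℕ), 2 ≤ a p →
    ∑ q ∈ Finset.Ioc p k, a q = N → R.R k a (col k p a) := by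
  intro N
  induction N with
  | zero =>
    intro a _ h0
    have h1 : ∀ q ∈ Finset.Ioc p k, a q = 0 := fun q hq => Finset.sum_eq_zero_iff.mp h0 q hq
    refine R.ext (fun j _ => rfl) ?_ (R.refl k a)
    intro j hj
    unfold col
    by_cases h2 : j < p
    · rw [if_pos h2]
    · rw [if_neg h2]
      by_cases h4 : j = p
      · rw [if_pos h4, Finset.Icc_eq_cons_Ioc hpk, Finset.sum_cons, h0, h4, add_zero]
      · rw [if_neg h4, h1 j (by rw [Finset.mem_Ioc]; omega)]
  | succ N ih =>
    intro a ha hN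
    obtain ⟨q, hq, hq0⟩ := Finset.exists_ne_zero_of_sum_ne_zero
      (show ∑ q ∈ Finset.Ioc p k, a q ≠ 0 by omega)
    rw [Finset.mem_Ioc] at hq
    have hq1 : 1 ≤ a q := by omega
    have hs := step h3 hq.1 hq.2 ha hq1
    have hp' : 2 ≤ mv p q a p := by unfold mv; rw [if_pos rfl]; omega
    have hsum : ∀ s : Finset ℕ, ∑ j ∈ s, mv p q a j + (if q ∈ s then 1 else 0) =
        ∑ j ∈ s, a j + (if p ∈ s then 1 else 0) := by
      intro s
      have h1 := Finset.sum_congr (rfl : s = s) fun j _ => mv_add hq.1 hq1 j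
      rw [Finset.sum_add_distrib, Finset.sum_add_distrib, Finset.sum_ite_eq',
        Finset.sum_ite_eq'] at h1
      exact h1
    have h4 : ∑ j ∈ Finset.Ioc p k, mv p q a j = N := by
      have h5 := hsum (Finset.Ioc p k)
      rw [if_pos (by rw [Finset.mem_Ioc]; exact hq), if_neg (by rw [Finset.mem_Ioc]; omega),
        hN] at h5
      omega
    have h6 := ih (mv p q a) hp' h4
    have h7 : col k p (mv p q a) = col k p a := by
      funext j
      unfold col
      by_cases h2 : j < p
      · rw [if_pos h2, if_pos h2]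
        unfold mv
        rw [if_neg (by omega), if_neg (by omega)]
      · rw [if_neg h2, if_neg h2]
        by_cases h8 : j = p
        · rw [if_pos h8, if_pos h8]
          have h5 := hsum (Finset.Icc p k)
          rw [if_pos (by rw [Finset.mem_Icc]; omega), if_pos (by rw [Finset.mem_Icc]; omega)] at h5
          omega
        · rw [if_neg h8, if_neg h8]
    rw [h7] at h6
    exact R.trans hs h6

theorem mem_sp {k : ℕ} {a : ℕ → ℕ} {j : ℕ} : j ∈ sp k a ↔ j ≤ k ∧ a j ≠ 0 := by
  unfold sp
  rw [Finset.mem_filter, Finset.mem_range]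
  constructor
  · rintro ⟨h1, h2⟩; exact ⟨by omega, h2⟩
  · rintro ⟨h1, h2⟩; exact ⟨by omega, h2⟩

theorem mem_pr {k : ℕ} {a : ℕ → ℕ} {j : ℕ} :
    j ∈ pr k a ↔ (j ≤ k ∧ a j ≠ 0) ∧ ∀ i < j, a i ≤ 1 := by
  unfold pr
  rw [Finset.mem_filter, mem_sp]

theorem deg_split {k p : ℕ} (hpk : p ≤ k) (a : ℕ → ℕ) :
    deg k a = ∑ j ∈ Finset.range p, a j + ∑ j ∈ Finset.Icc p k, a j := by
  unfold deg
  rw [← Finset.sum_range_add_sum_Ico a (show p ≤ k + 1 by omega)]
  congr 1

/-- a vector with a square -/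
theorem main_sq {R : FC} (h3 : O3 R) {k : ℕ} {a b : ℕ → ℕ} (hd : deg k a = deg k b)
    (hp : pr k a = pr k b) {p : ℕ} (hpk : p ≤ k) (hap : 2 ≤ a p) (hlt : ∀ i < p, a i ≤ 1) :
    R.R k a b := by
  have hpa : p ∈ pr k a := mem_pr.mpr ⟨⟨hpk, by omega⟩, hlt⟩
  have hpb : p ∈ pr k b := by rw [← hp]; exact hpa
  have hb := mem_pr.mp hpb
  have heq : ∀ j < p, a j = b j := by
    intro j hj
    have h1 := hlt j hj
    have h2 := hb.2 j hj
    have h4 : j ∈ pr k a ↔ a j ≠ 0 := by
      rw [mem_pr]
      exact ⟨fun h => h.1.2, fun h => ⟨⟨by omega, h⟩, fun i hi => hlt i (by omega)⟩⟩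
    have h5 : j ∈ pr k b ↔ b j ≠ 0 := by
      rw [mem_pr]
      exact ⟨fun h => h.1.2, fun h => ⟨⟨by omega, h⟩, fun i hi => hb.2 i (by omega)⟩⟩
    rw [hp] at h4
    by_cases h6 : j ∈ pr k b
    · have := h4.mp h6
      have := h5.mp h6
      omega
    · have h7 : ¬ a j ≠ 0 := fun h => h6 (h4.mpr h)
      have h8 : ¬ b j ≠ 0 := fun h => h6 (h5.mpr h)
      omega
  have hS : ∑ j ∈ Finset.Icc p k, a j = ∑ j ∈ Finset.Icc p k, b j := by
    have h1 := deg_split hpk a
    have h2 := deg_split hpk b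
    have h4 : ∑ j ∈ Finset.range p, a j = ∑ j ∈ Finset.range p, b j :=
      Finset.sum_congr rfl fun j hj => heq j (Finset.mem_range.mp hj)
    omega
  have hbp : 2 ≤ b p := by
    by_contra hcon
    have hb1 : b p = 1 := by
      have := hb.1.2
      omega
    have hz : ∀ j, p < j → j ≤ k → b j = 0 := by
      intro j
      induction j using Nat.strong_induction_on with
      | _ j ih =>
        intro h1 h2
        by_contra h4
        have h5 : j ∈ pr k b := by
          rw [mem_pr]
          refine ⟨⟨h2, h4⟩, ?_⟩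
          intro i hi
          rcases lt_trichotomy i p with h6 | h6 | h6
          · exact hb.2 i h6
          · rw [h6]; omega
          · rw [ih i hi h6 (by omega)]; omega
        rw [← hp, mem_pr] at h5
        have := h5.2 p h1
        omega
    rw [Finset.Icc_eq_cons_Ioc hpk, Finset.sum_cons, Finset.sum_cons,
      Finset.sum_eq_zero (fun j hj => hz j (Finset.mem_Ioc.mp hj).1 (Finset.mem_Ioc.mp hj).2)] at hS
    omega
  have h1 := to_col h3 hpk _ a hap rfl
  have h2 := to_col h3 hpk _ b hbp rfl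
  refine R.trans h1 (R.symm (R.ext (fun j _ => rfl) ?_ h2))
  intro j _
  unfold col
  by_cases h4 : j < p
  · rw [if_pos h4, if_pos h4, heq j h4]
  · rw [if_neg h4, if_neg h4, hS]

theorem oca : OcaStmt := by
  intro R k a b h3 hd hp
  by_cases ha : ∃ p, p ≤ k ∧ 2 ≤ a p
  · obtain ⟨h1, h2⟩ := Nat.find_spec ha
    refine main_sq h3 hd hp h1 h2 ?_
    intro i hi
    have h4 := Nat.find_min ha hi
    by_contra h5
    exact h4 ⟨by omega, by omega⟩
  · by_cases hb : ∃ p, p ≤ k ∧ 2 ≤ b p
    · obtain ⟨h1, h2⟩ := Nat.find_spec hb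
      refine R.symm (main_sq h3 hd.symm hp.symm h1 h2 ?_)
      intro i hi
      have h4 := Nat.find_min hb hi
      by_contra h5
      exact h4 ⟨by omega, by omega⟩
    · refine R.ext (fun j _ => rfl) ?_ (R.refl k a)
      intro j hj
      have h1 : a j ≤ 1 := by
        by_contra h; exact ha ⟨j, hj, by omega⟩
      have h2 : b j ≤ 1 := by
        by_contra h; exact hb ⟨j, hj, by omega⟩
      have h4 : j ∈ pr k a ↔ a j ≠ 0 := by
        rw [mem_pr]
        refine ⟨fun h => h.1.2, fun h => ⟨⟨hj, h⟩, fun i hi => ?_⟩⟩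
        by_contra h; exact ha ⟨i, by omega, by omega⟩
      have h5 : j ∈ pr k b ↔ b j ≠ 0 := by
        rw [mem_pr]
        refine ⟨fun h => h.1.2, fun h => ⟨⟨hj, h⟩, fun i hi => ?_⟩⟩
        by_contra h; exact hb ⟨i, by omega, by omega⟩
      rw [hp] at h4
      by_cases h6 : j ∈ pr k b
      · have := h4.mp h6
        have := h5.mp h6
        omega
      · have h7 : ¬ a j ≠ 0 := fun h => h6 (h4.mpr h)
        have h8 : ¬ b j ≠ 0 := fun h => h6 (h5.mpr h)
        omega

end Pool.Agent.MVO.H39
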