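import Pool.Agent.Helper39_MVO.NPL

/-!
# Squad MVO, row NPB (helper39)
-/

set_option autoImplicit false

namespace Pool.Agent.MVO.H39

open Pool.Agent.MVO Pool.Agent.Helper14_MV Pool.Agent.Helper2_MV

def gXb (x y z : ℕ) : ℕ :=
  if x = 1 then (if y = 2 then 1 else if y = 1 then 4 else 2) else
    if x = 0 ∧ y = 1 ∧ z = 2 then 3 else 0

def gam4 (n : ℕ) : ℕ := if n = 4 then 1 else n

def gYb (x y z : ℕ) : ℕ := gam4 (gXb x y z)

def gZb (x y z : ℕ) : ℕ :=
  if x = 3 ∨ y = 3 ∨ z = 3 then 0 else if z = 0 then 1 else if x = 0 then 3 else 2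

def cb (s : ℕ) : ℕ := if s = 1 then 1 else if s = 2 then 2 else 0

/-- a power of `x` in block 0 -/
theorem ub1 {β : FIC} (hC : Cent β) {x y p q : ℕ} (hd : x + y = 3) (hd' : 4 ≤ p + q)
    (h : L1 β 1 (v2 x y) (v2 p q)) (hp : 3 ≤ p) : L1 β 1 (v2 x y) (v2 0 3) := by
  obtain ⟨K, hK⟩ := cent_v2 hC
  have h0 := pow_step hd' 0 (one_block hd h 0 (by omega)) K
  have h1 := pow_step hd' 1 (one_block hd h 1 (by omega)) (K + 1)
  have hle : K ≤ K * (p + q - 3) := by
    have : K * 1 ≤ K * (p + q - 3) := Nat.mul_le_mul_left _ (by omega)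
    omega
  have e1 : (K + 1) * (p + q - 3) = K * (p + q - 3) + (p + q - 3) := by ring
  rw [e1] at h1
  generalize K * (p + q - 3) = N at h0 h1 hle
  have a1 : L1 β 1 (v2 p q) (v2 (N + p) q) := by
    refine (FC.ofFIC β).ext ?_ ?_ ((FC.ofFIC β).add (v2 (p - 3) q) h0)
    · intro s hs
      interval_cases s
      · change 3 + (p - 3) = p; omega
      · change 0 + q = q; omega
    · intro s hs
      interval_cases s
      · change 3 + N + (p - 3) = N + p; omega
      · change 0 + q = q; omega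
  have a2 : L1 β 1 (v2 (N + p) q) (v2 0 (N + p + q)) := by
    refine (FC.ofFIC β).ext ?_ ?_ ((FC.ofFIC β).add (v2 0 q) (hK (N + p) (by omega)))
    · intro s hs
      interval_cases s
      · change N + p + 0 = N + p; omega
      · change 0 + q = q; omega
    · intro s hs
      interval_cases s
      · change 0 + 0 = 0; omega
      · change N + p + q = N + p + q; omega
  have a3 : L1 β 1 (v2 0 3) (v2 0 (N + p + q)) := by
    refine (FC.ofFIC β).ext ?_ ?_ h1
    · intro s hs
      interval_cases s <;> rfl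
    · intro s hs
      interval_cases s
      · rfl
      · change 3 + (N + (p + q - 3)) = N + p + q; omega
  exact L1_trans h (L1_trans a1 (L1_trans a2 (L1_symm a3)))

/-- a power of `x` in block 1 -/
theorem ub2 {β : FIC} (hC : Cent β) {x y p q : ℕ} (hd : x + y = 3) (hd' : 4 ≤ p + q)
    (h : L1 β 1 (v2 x y) (v2 p q)) (hq : 3 ≤ q) : L1 β 1 (v2 x y) (v2 3 0) := by
  obtain ⟨K, hK⟩ := cent_v2 hC
  have h0 := pow_step hd' 1 (one_block hd h 1 (by omega)) K
  have h1 := pow_step hd' 0 (one_block hd h 0 (by omega)) (K + 1)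
  have hle : K ≤ K * (p + q - 3) := by
    have : K * 1 ≤ K * (p + q - 3) := Nat.mul_le_mul_left _ (by omega)
    omega
  have e1 : (K + 1) * (p + q - 3) = K * (p + q - 3) + (p + q - 3) := by ring
  rw [e1] at h1
  generalize K * (p + q - 3) = N at h0 h1 hle
  have a1 : L1 β 1 (v2 p q) (v2 p (N + q)) := by
    refine (FC.ofFIC β).ext ?_ ?_ ((FC.ofFIC β).add (v2 p (q - 3)) h0)
    · intro s hs
      interval_cases s
      · change 0 + p = p; omega
      · change 3 + (q - 3) = q; omega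
    · intro s hs
      interval_cases s
      · change 0 + p = p; omega
      · change 3 + N + (q - 3) = N + q; omega
  have a2 : L1 β 1 (v2 p (N + q)) (v2 (N + p + q) 0) := by
    refine L1_symm ((FC.ofFIC β).ext ?_ ?_
      ((FC.ofFIC β).add (v2 p 0) (hK (N + q) (by omega))))
    · intro s hs
      interval_cases s
      · change N + q + p = N + p + q; omega
      · change 0 + 0 = 0; omega
    · intro s hs
      interval_cases s
      · change 0 + p = p; omega
      · change N + q + 0 = N + q; omega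
  have a3 : L1 β 1 (v2 3 0) (v2 (N + p + q) 0) := by
    refine (FC.ofFIC β).ext ?_ ?_ h1
    · intro s hs
      interval_cases s <;> rfl
    · intro s hs
      interval_cases s
      · change 3 + (N + (p + q - 3)) = N + p + q; omega
      · rfl
  exact L1_trans h (L1_trans a1 (L1_trans a2 (L1_symm a3)))

theorem npb (ecb : EcbStmt) (eck : EckStmt) : NpbStmt := by
  intro β hβ hnc hC hO h03
  have n1 : ¬ L1 β 1 (v2 2 1) (v2 1 2) := hO.n1
  have n2 : ¬ L1 β 1 (v2 1 2) (v2 0 3) := hO.n2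
  have n3 : ¬ L1 β 1 (v2 3 0) (v2 2 1) := hO.n3
  have n02 : ¬ L1 β 1 (v2 3 0) (v2 1 2) := fun h => n2 (L1_trans (L1_symm h) h03)
  have n13 : ¬ L1 β 1 (v2 2 1) (v2 0 3) := fun h => n3 (L1_trans h03 (L1_symm h))
  have hc : ∀ s ≤ 3, ∀ t ≤ 3, L1 β 1 (v2 (3 - s) s) (v2 (3 - t) t) → cb s = cb t := by
    intro s hs t ht h
    interval_cases s <;> interval_cases t <;> first
      | rfl
      | exact absurd h n02
      | exact absurd h n13
      | exact absurd h n1
      | exact absurd h n2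
      | exact absurd h n3
      | exact absurd (L1_symm h) n02
      | exact absurd (L1_symm h) n13
      | exact absurd (L1_symm h) n1
      | exact absurd (L1_symm h) n2
      | exact absurd (L1_symm h) n3
  have ub21 : ∀ p q, 4 ≤ p + q → ¬ L1 β 1 (v2 2 1) (v2 p q) := by
    intro p q hpq h
    by_cases hp : 3 ≤ p
    · exact n13 (ub1 hC rfl hpq h hp)
    · by_cases hq : 3 ≤ q
      · exact n3 (L1_symm (ub2 hC rfl hpq h hq))
      · have e1 : p = 2 := by omega
        have e2 : q = 2 := by omega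
        rw [e1, e2] at h
        have h1 : L1 β 1 (v2 2 2) (v2 2 3) := by
          refine (FC.ofFIC β).ext ?_ ?_ ((FC.ofFIC β).add (v2 0 1) h)
          · intro s hs
            interval_cases s <;> rfl
          · intro s hs
            interval_cases s <;> rfl
        exact n3 (L1_symm (ub2 hC rfl (by norm_num) (L1_trans h h1) (by norm_num)))
  have ub12 : ∀ p q, 4 ≤ p + q → ¬ L1 β 1 (v2 1 2) (v2 p q) := by
    intro p q hpq h
    by_cases hp : 3 ≤ p
    · exact n2 (ub1 hC rfl hpq h hp)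
    · by_cases hq : 3 ≤ q
      · exact n02 (L1_symm (ub2 hC rfl hpq h hq))
      · have e1 : p = 2 := by omega
        have e2 : q = 2 := by omega
        rw [e1, e2] at h
        have h1 : L1 β 1 (v2 2 2) (v2 3 2) := by
          refine (FC.ofFIC β).ext ?_ ?_ ((FC.ofFIC β).add (v2 1 0) h)
          · intro s hs
            interval_cases s <;> rfl
          · intro s hs
            interval_cases s <;> rfl
        exact n2 (ub1 hC rfl (by norm_num) (L1_trans h h1) (by norm_num))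
  have hh : ∀ s ≤ 3, ∀ p q, 4 ≤ p + q → L1 β 1 (v2 (3 - s) s) (v2 p q) → (s = 0 ∨ s = 3) := by
    intro s hs p q hpq h
    interval_cases s
    · exact Or.inl rfl
    · exact absurd h (ub21 p q hpq)
    · exact absurd h (ub12 p q hpq)
    · exact Or.inr rfl
  have hX : β ≤ GE 2 (c3 gXb) 0 := by
    refine ecb β hβ hnc 2 (c3 gXb) 0 (c3_ext _) ?_ ?_
    · exact cls_of_two gXb cb hc (by decide)
    · exact high_of_two gXb 0 (fun s => s = 0 ∨ s = 3) hh (by decide)
  have hXY : GE 2 (c3 gXb) 0 ≤ GE 2 (c3 gYb) 0 :=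
    ge_le_ge gam4 (fun _ _ _ => rfl) rfl
  have hZ : β ≤ GE 2 (c3 gZb) 0 := by
    refine ecb β hβ hnc 2 (c3 gZb) 0 (c3_ext _) ?_ ?_
    · exact cls_of_two gZb cb hc (by decide)
    · exact high_of_two gZb 0 (fun s => s = 0 ∨ s = 3) hh (by decide)
  have x1 : L1 (GE 2 (c3 gXb) 0) 1 (v2 2 1) (v2 3 0) :=
    eck2 eck gXb 0 2 1 3 0 rfl rfl (by decide)
  have x2 : L1 (GE 2 (c3 gXb) 0) 2 (v3 2 1 0) (v3 3 0 0) := push2 (i := 0) (j := 1)
    (by omega) (by omega) x1
  have x3 : L1 (GE 2 (c3 gXb) 0) 2 (v3 2 0 1) (v3 3 0 0) := push2 (i := 0) (j := 2)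
    (by omega) (by omega) x1
  have y1 : L1 (GE 2 (c3 gYb) 0) 2 (v3 1 2 0) (v3 1 1 1) :=
    eck3 eck gYb 0 1 2 0 1 1 1 rfl rfl (by decide)
  have z1 : L1 (GE 2 (c3 gZb) 0) 1 (v2 1 2) (v2 2 1) :=
    eck2 eck gZb 0 1 2 2 1 rfl rfl (by decide)
  have z2 : L1 (GE 2 (c3 gZb) 0) 2 (v3 1 2 0) (v3 2 1 0) := push2 (i := 0) (j := 1)
    (by omega) (by omega) z1
  have z3 : L1 (GE 2 (c3 gZb) 0) 2 (v3 2 0 1) (v3 1 1 1) :=
    eck3 eck gZb 0 2 0 1 1 1 1 rfl rfl (by decide)
  refine fail (a := v3 1 2 0) hX hZ (FIC.le_trans' hX hXY) hXY ?_ ?_ ?_ ?_ y1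
  · refine ge_le_P (c := 4) (by decide) rfl ?_
    intro x y z hs h
    unfold gXb at h
    split_ifs at h
    all_goals omega
  · refine inf_le_P (c := 2) (c' := 1) (by decide) rfl rfl ?_
    intro x y z hs h h'
    unfold gZb at h
    unfold gYb gam4 gXb at h'
    split_ifs at h h'
    all_goals first | omega | contradiction
  · rintro ⟨-, h, -⟩
    exact absurd h (by decide)
  · have s1 := FIC.le_sup_left (GE 2 (c3 gXb) 0) (GE 2 (c3 gZb) 0)
    have s2 := FIC.le_sup_right (GE 2 (c3 gXb) 0) (GE 2 (c3 gZb) 0)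
    have a1 := s2 _ _ z2
    have a2 := s1 _ _ (L1_trans x2 (L1_symm x3))
    have a3 := s2 _ _ z3
    exact (FIC.sup (GE 2 (c3 gXb) 0) (GE 2 (c3 gZb) 0)).trans a1
      ((FIC.sup (GE 2 (c3 gXb) 0) (GE 2 (c3 gZb) 0)).trans a2 a3)

end Pool.Agent.MVO.H39
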