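import Pool.Agent.Helper39_MVO.ISO

/-!
# Squad MVO, tools for the rows NPB and NPC (helper39)
-/

set_option autoImplicit false

namespace Pool.Agent.MVO.H39

open Pool.Agent.MVO Pool.Agent.Helper14_MV Pool.Agent.Helper2_MV

/-- a class function which depends on three values -/
def c3 (g : ℕ → ℕ → ℕ → ℕ) (a : ℕ → ℕ) : ℕ := g (a 0) (a 1) (a 2)

theorem c3_ext (g : ℕ → ℕ → ℕ → ℕ) : CExt 2 (c3 g) := by
  intro a a' h
  unfold c3
  rw [h 0 (by omega), h 1 (by omega), h 2 (by omega)]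

theorem psh1 (f a : ℕ → ℕ) (j : ℕ) :
    psh 1 f a j = (if f 0 = j then a 0 else 0) + (if f 1 = j then a 1 else 0) := by
  unfold psh
  rw [Finset.sum_range_succ, Finset.sum_range_succ, Finset.sum_range_zero, zero_add]

theorem psh2 (f a : ℕ → ℕ) (j : ℕ) :
    psh 2 f a j = (if f 0 = j then a 0 else 0) + (if f 1 = j then a 1 else 0) +
      (if f 2 = j then a 2 else 0) := by
  unfold psh
  rw [Finset.sum_range_succ, Finset.sum_range_succ, Finset.sum_range_succ,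
    Finset.sum_range_zero, zero_add]

theorem deg1 (a : ℕ → ℕ) : deg 1 a = a 0 + a 1 := by
  unfold deg
  rw [Finset.sum_range_succ, Finset.sum_range_succ, Finset.sum_range_zero, zero_add]

theorem deg2 (a : ℕ → ℕ) : deg 2 a = a 0 + a 1 + a 2 := by
  unfold deg
  rw [Finset.sum_range_succ, Finset.sum_range_succ, Finset.sum_range_succ,
    Finset.sum_range_zero, zero_add]

/-- the value of `g` on a pushed type with two entries -/
def u2 (g : ℕ → ℕ → ℕ → ℕ) (p q i j : ℕ) : ℕ :=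
  g ((if i = 0 then p else 0) + (if j = 0 then q else 0))
    ((if i = 1 then p else 0) + (if j = 1 then q else 0))
    ((if i = 2 then p else 0) + (if j = 2 then q else 0))

/-- the value of `g` on a pushed type with three entries -/
def u3 (g : ℕ → ℕ → ℕ → ℕ) (p q r i j l : ℕ) : ℕ :=
  g ((if i = 0 then p else 0) + (if j = 0 then q else 0) + (if l = 0 then r else 0))
    ((if i = 1 then p else 0) + (if j = 1 then q else 0) + (if l = 1 then r else 0))
    ((if i = 2 then p else 0) + (if j = 2 then q else 0) + (if l = 2 then r else 0))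

theorem c3_psh1 (g : ℕ → ℕ → ℕ → ℕ) (f : ℕ → ℕ) (p q : ℕ) :
    c3 g (psh 1 f (v2 p q)) = u2 g p q (f 0) (f 1) := by
  unfold c3 u2
  rw [psh1, psh1, psh1]
  rfl

theorem c3_psh2 (g : ℕ → ℕ → ℕ → ℕ) (f : ℕ → ℕ) (p q r : ℕ) :
    c3 g (psh 2 f (v3 p q r)) = u3 g p q r (f 0) (f 1) (f 2) := by
  unfold c3 u3
  rw [psh2, psh2, psh2]
  rfl

/-- ECK for two blocks -/
theorem eck2 (eck : EckStmt) (g : ℕ → ℕ → ℕ → ℕ) (h0 p q p' q' : ℕ) (hd : p + q = 3)
    (hd' : p' + q' = 3)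
    (h : ∀ i ≤ 2, ∀ j ≤ 2, i ≤ j → u2 g p q i j = u2 g p' q' i j) :
    L1 (GE 2 (c3 g) h0) 1 (v2 p q) (v2 p' q') := by
  refine eck 2 (c3 g) h0 (c3_ext g) 1 _ _ ?_ ?_ ?_
  · rw [deg1]; exact hd
  · rw [deg1]; exact hd'
  · intro f hf
    rw [c3_psh1, c3_psh1]
    exact h _ (hf.le 0 (by omega)) _ (hf.le 1 (by omega)) (hf.mono 0 1 (by omega) (by omega))

/-- ECK for three blocks -/
theorem eck3 (eck : EckStmt) (g : ℕ → ℕ → ℕ → ℕ) (h0 p q r p' q' r' : ℕ) (hd : p + q + r = 3)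
    (hd' : p' + q' + r' = 3)
    (h : ∀ i ≤ 2, ∀ j ≤ 2, ∀ l ≤ 2, i ≤ j → j ≤ l → u3 g p q r i j l = u3 g p' q' r' i j l) :
    L1 (GE 2 (c3 g) h0) 2 (v3 p q r) (v3 p' q' r') := by
  refine eck 2 (c3 g) h0 (c3_ext g) 2 _ _ ?_ ?_ ?_
  · rw [deg2]; exact hd
  · rw [deg2]; exact hd'
  · intro f hf
    rw [c3_psh2, c3_psh2]
    exact h _ (hf.le 0 (by omega)) _ (hf.le 1 (by omega)) _ (hf.le 2 (by omega))
      (hf.mono 0 1 (by omega) (by omega)) (hf.mono 1 2 (by omega) (by omega))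

/-- the map of two blocks into three -/
def m2 (i j : ℕ) : ℕ → ℕ := fun s => if s = 0 then i else j

theorem m2_bmap {i j k : ℕ} (hij : i ≤ j) (hj : j ≤ k) : BMap 1 k (m2 i j) := by
  refine ⟨?_, ?_⟩
  · intro a b hab _
    unfold m2
    by_cases h1 : a = 0
    · by_cases h2 : b = 0
      · rw [if_pos h1, if_pos h2]
      · rw [if_pos h1, if_neg h2]; exact hij
    · rw [if_neg h1, if_neg (by omega)]
  · intro a _
    unfold m2
    by_cases h1 : a = 0
    · rw [if_pos h1]; omega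
    · rw [if_neg h1]; exact hj

/-- push of an identity with two blocks to three blocks -/
theorem push2 {ρ : FIC} {p q p' q' i j : ℕ} (hij : i ≤ j) (hj : j ≤ 2)
    (h : L1 ρ 1 (v2 p q) (v2 p' q')) :
    L1 ρ 2 (v3 ((if i = 0 then p else 0) + (if j = 0 then q else 0))
      ((if i = 1 then p else 0) + (if j = 1 then q else 0))
      ((if i = 2 then p else 0) + (if j = 2 then q else 0)))
      (v3 ((if i = 0 then p' else 0) + (if j = 0 then q' else 0))
      ((if i = 1 then p' else 0) + (if j = 1 then q' else 0))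
      ((if i = 2 then p' else 0) + (if j = 2 then q' else 0))) := by
  have h1 := (FC.ofFIC ρ).push 2 (m2 i j) (m2_bmap hij hj) h
  refine (FC.ofFIC ρ).ext ?_ ?_ h1
  · intro s hs
    rw [psh1]
    interval_cases s <;> rfl
  · intro s hs
    rw [psh1]
    interval_cases s <;> rfl

/-! ### the classes of `β` -/

/-- the two merges -/
theorem merge {β : FIC} {a a' : ℕ → ℕ} (h : L1 β 2 a a') :
    L1 β 1 (v2 (a 0 + a 1) (a 2)) (v2 (a' 0 + a' 1) (a' 2)) ∧
    L1 β 1 (v2 (a 0) (a 1 + a 2)) (v2 (a' 0) (a' 1 + a' 2)) := by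
  refine ⟨?_, ?_⟩
  · have h1 := (FC.ofFIC β).push 1 (cut 1) (cut_bmap 2 1) h
    refine (FC.ofFIC β).ext ?_ ?_ h1
    · intro s hs
      rw [psh2]
      interval_cases s <;> simp [cut, v2]
    · intro s hs
      rw [psh2]
      interval_cases s <;> simp [cut, v2]
  · have h1 := (FC.ofFIC β).push 1 (cut 0) (cut_bmap 2 0) h
    refine (FC.ofFIC β).ext ?_ ?_ h1
    · intro s hs
      rw [psh2]
      interval_cases s <;> simp [cut, v2]
    · intro s hs
      rw [psh2]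
      interval_cases s <;> simp [cut, v2]

/-- from classes of types with two blocks to classes of types with three blocks -/
theorem cls_of_two {β : FIC} (g : ℕ → ℕ → ℕ → ℕ) (c : ℕ → ℕ)
    (hc : ∀ s ≤ 3, ∀ t ≤ 3, L1 β 1 (v2 (3 - s) s) (v2 (3 - t) t) → c s = c t)
    (hg : ∀ y z y' z' : Fin 4, y.1 + z.1 ≤ 3 → y'.1 + z'.1 ≤ 3 → c z.1 = c z'.1 →
      c (y.1 + z.1) = c (y'.1 + z'.1) →
        g (3 - (y.1 + z.1)) y.1 z.1 = g (3 - (y'.1 + z'.1)) y'.1 z'.1)
    (a a' : ℕ → ℕ) (ha : deg 2 a = 3) (ha' : deg 2 a' = 3) (h : L1 β 2 a a') :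
    c3 g a = c3 g a' := by
  rw [deg2] at ha ha'
  obtain ⟨h1, h2⟩ := merge h
  have e1 : a 0 + a 1 = 3 - a 2 := by omega
  have e1' : a' 0 + a' 1 = 3 - a' 2 := by omega
  rw [e1, e1'] at h1
  have e2 : a 0 = 3 - (a 1 + a 2) := by omega
  have e2' : a' 0 = 3 - (a' 1 + a' 2) := by omega
  rw [e2, e2'] at h2
  have h3 := hc _ (by omega) _ (by omega) h1
  have h4 := hc _ (by omega) _ (by omega) h2
  have h5 := hg ⟨a 1, by omega⟩ ⟨a 2, by omega⟩ ⟨a' 1, by omega⟩ ⟨a' 2, by omega⟩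
    (by change a 1 + a 2 ≤ 3; omega) (by change a' 1 + a' 2 ≤ 3; omega) h3 h4
  unfold c3
  rw [e2, e2']
  exact h5

/-- from relations with higher degrees of types with two blocks to three blocks -/
theorem high_of_two {β : FIC} (g : ℕ → ℕ → ℕ → ℕ) (h0 : ℕ) (S : ℕ → Prop)
    (hc : ∀ s ≤ 3, ∀ p q, 4 ≤ p + q → L1 β 1 (v2 (3 - s) s) (v2 p q) → S s)
    (hg : ∀ y z : Fin 4, y.1 + z.1 ≤ 3 → S z.1 → S (y.1 + z.1) →
      g (3 - (y.1 + z.1)) y.1 z.1 = h0)
    (a a' : ℕ → ℕ) (ha : deg 2 a = 3) (ha' : 4 ≤ deg 2 a') (h : L1 β 2 a a') :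
    c3 g a = h0 := by
  rw [deg2] at ha ha'
  obtain ⟨h1, h2⟩ := merge h
  have e1 : a 0 + a 1 = 3 - a 2 := by omega
  rw [e1] at h1
  have e2 : a 0 = 3 - (a 1 + a 2) := by omega
  rw [e2] at h2
  have h3 := hc _ (by omega) _ _ (by omega) h1
  have h4 := hc _ (by omega) _ _ (by omega) h2
  have h5 := hg ⟨a 1, by omega⟩ ⟨a 2, by omega⟩ (by change a 1 + a 2 ≤ 3; omega) h3 h4
  unfold c3
  rw [e2]
  exact h5

/-! ### the separating predicate -/

theorem mw_inj {a a' : ℕ → ℕ} {k : ℕ} (h : mw k a = mw k a') : ∀ j ≤ k, a j = a' j := by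
  intro j hj
  have h1 := uniq (blkOk_mw k a) (blkOk_mw k a') h j hj
  have h2 := congrArg List.length h1
  simpa using h2

/-- words of the type `(1,1,1)` -/
def P111 (w : Word) : Prop := w.toList = mw 2 (v3 1 1 1)

/-- `(1,1,1)` is a class of `g` -/
theorem ge_le_P {g : ℕ → ℕ → ℕ → ℕ} {h0 c : ℕ} (hc : c ≠ h0)
    (h1 : g 1 1 1 = c) (h2 : ∀ x y z, x + y + z = 3 → g x y z = c → x = 1 ∧ y = 1 ∧ z = 1) :
    GE 2 (c3 g) h0 ≤ gam P111 := by
  have hiff : ∀ w : Word, P111 w ↔ PC 2 (fun a => c3 g a = c) (c = h0) w := by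
    intro w
    constructor
    · intro h
      exact ⟨v3 1 1 1, h, Or.inl ⟨by rw [deg2]; rfl, h1⟩⟩
    · rintro ⟨a, ha, h3⟩
      rcases h3 with ⟨h4, h5⟩ | ⟨-, h5⟩
      · rw [deg2] at h4
        obtain ⟨e0, e1, e2⟩ := h2 _ _ _ h4 h5
        unfold P111
        rw [ha]
        unfold mw
        apply asm_congr
        intro j hj
        interval_cases j
        · rw [e0]; rfl
        · rw [e1]; rfl
        · rw [e2]; rfl
      · exact absurd h5 hc
  intro u v huv φ m q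
  rw [hiff, hiff]
  exact huv c φ m q

/-- `(1,1,1)` is the intersection of two classes -/
theorem inf_le_P {g g' : ℕ → ℕ → ℕ → ℕ} {h0 h0' c c' : ℕ} (hc : c ≠ h0)
    (h1 : g 1 1 1 = c) (h1' : g' 1 1 1 = c')
    (h2 : ∀ x y z, x + y + z = 3 → g x y z = c → g' x y z = c' → x = 1 ∧ y = 1 ∧ z = 1) :
    FIC.inf (GE 2 (c3 g) h0) (GE 2 (c3 g') h0') ≤ gam P111 := by
  have hiff : ∀ w : Word, P111 w ↔ (PC 2 (fun a => c3 g a = c) (c = h0) w ∧
      PC 2 (fun a => c3 g' a = c') (c' = h0') w) := by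
    intro w
    constructor
    · intro h
      exact ⟨⟨v3 1 1 1, h, Or.inl ⟨by rw [deg2]; rfl, h1⟩⟩,
        ⟨v3 1 1 1, h, Or.inl ⟨by rw [deg2]; rfl, h1'⟩⟩⟩
    · rintro ⟨⟨a, ha, h3⟩, ⟨a', ha', h3'⟩⟩
      rcases h3 with ⟨h4, h5⟩ | ⟨-, h5⟩
      · have hinj := mw_inj (ha.symm.trans ha')
        have e0' := hinj 0 (by omega)
        have e1' := hinj 1 (by omega)
        have e2' := hinj 2 (by omega)
        rw [deg2] at h4
        rcases h3' with ⟨h4', h5'⟩ | ⟨h4', -⟩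
        · unfold c3 at h5 h5'
          rw [← e0', ← e1', ← e2'] at h5'
          obtain ⟨e0, e1, e2⟩ := h2 _ _ _ h4 h5 h5'
          unfold P111
          rw [ha]
          unfold mw
          apply asm_congr
          intro j hj
          interval_cases j
          · rw [e0]; rfl
          · rw [e1]; rfl
          · rw [e2]; rfl
        · rw [deg2] at h4'
          omega
      · exact absurd h5 hc
  intro u v huv φ m q
  rw [hiff, hiff, huv.1 c φ m q, huv.2 c' φ m q]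

theorem ge_le_ge {g g' : ℕ → ℕ → ℕ → ℕ} {h0 h0' : ℕ} (γ : ℕ → ℕ)
    (h1 : ∀ x y z, g' x y z = γ (g x y z)) (h2 : h0' = γ h0) :
    GE 2 (c3 g) h0 ≤ GE 2 (c3 g') h0' := by
  have hiff : ∀ (c : ℕ) (w : Word), PC 2 (fun a => c3 g' a = c) (c = h0') w ↔
      ∃ d, γ d = c ∧ PC 2 (fun a => c3 g a = d) (d = h0) w := by
    intro c w
    constructor
    · rintro ⟨a, ha, h3⟩
      rcases h3 with ⟨h4, h5⟩ | ⟨h4, h5⟩
      · exact ⟨c3 g a, by rw [← h5]; exact (h1 _ _ _).symm, a, ha, Or.inl ⟨h4, rfl⟩⟩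
      · exact ⟨h0, by rw [h5, h2], a, ha, Or.inr ⟨h4, rfl⟩⟩
    · rintro ⟨d, hd, a, ha, h3⟩
      rcases h3 with ⟨h4, h5⟩ | ⟨h4, h5⟩
      · exact ⟨a, ha, Or.inl ⟨h4, by
          change c3 g' a = c
          rw [← hd, ← h5]
          exact h1 _ _ _⟩⟩
      · exact ⟨a, ha, Or.inr ⟨h4, by rw [← hd, h5, h2]⟩⟩
  intro u v huv c φ m q
  rw [hiff, hiff]
  exact exists_congr fun d => and_congr_right fun _ => huv d φ m q

/-- the modular law fails -/
theorem fail {β ρ σ τ : FIC} (hβρ : β ≤ ρ) (hβσ : β ≤ σ) (hβτ : β ≤ τ) (hρτ : ρ ≤ τ)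
    (hρP : ρ ≤ gam P111) (hστP : FIC.inf σ τ ≤ gam P111) {a : ℕ → ℕ}
    (hne : ¬ (a 0 = 1 ∧ a 1 = 1 ∧ a 2 = 1)) (hsup : L1 (FIC.sup ρ σ) 2 a (v3 1 1 1))
    (hτ : L1 τ 2 a (v3 1 1 1)) : ¬ ModF β := by
  intro hM
  have h1 := hM ρ σ τ hβρ hβσ hβτ hρτ _ _ hsup hτ
  have h2 := FIC.sup_le hρP hστP _ _ h1
  have h3 := h2 (MonoidHom.id _) 1 1
  simp only [MonoidHom.id_apply, one_mul, mul_one] at h3
  have h4 : P111 (FreeMonoid.ofList (mw 2 a)) := h3.mpr rfl
  have h5 := mw_inj (k := 2) (a := a) (a' := v3 1 1 1) h4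
  exact hne ⟨h5 0 (by omega), h5 1 (by omega), h5 2 (by omega)⟩

/-! ### centrality -/

theorem L1_trans {β : FIC} {k : ℕ} {a b c : ℕ → ℕ} (h : L1 β k a b) (h' : L1 β k b c) :
    L1 β k a c := (FC.ofFIC β).trans h h'

theorem cent_v2 {β : FIC} (h : Cent β) : ∃ K, ∀ m, K ≤ m → L1 β 1 (v2 m 0) (v2 0 m) := by
  obtain ⟨K, hK⟩ := h
  refine ⟨K, fun m hm => ?_⟩
  have h1 := (hK m hm).sub (fun c => if c = 1 then [2] else [c])
  unfold L1
  rw [mw1, mw1]
  have e1 : ∀ n : ℕ, (List.replicate n 0).flatMap (fun c => if c = 1 then [2] else [c]) =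
      List.replicate n 0 := by
    intro n
    induction n with
    | zero => rfl
    | succ n ih => rw [List.replicate_succ, List.flatMap_cons, ih]; rfl
  rw [List.flatMap_append, e1, List.flatMap_cons, List.flatMap_nil, List.flatMap_cons, e1] at h1
  exact h1

/-- `x³ ~ x^n` in one block implies `x³ ~ x^N` for large `N` -/
theorem pow_step {β : FIC} {n : ℕ} (hn : 4 ≤ n) (i : ℕ)
    (h : L1 β 1 (sg i 3) (sg i n)) (j : ℕ) : L1 β 1 (sg i 3) (sg i (3 + j * (n - 3))) := by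
  induction j with
  | zero => rw [zero_mul, add_zero]; exact (FC.ofFIC β).refl _ _
  | succ j ih =>
    refine L1_trans ih ?_
    have h1 := (FC.ofFIC β).add (sg i (j * (n - 3))) h
    refine (FC.ofFIC β).ext ?_ ?_ h1
    · intro s _
      unfold sg
      by_cases hs : s = i
      · rw [if_pos hs, if_pos hs, if_pos hs]
      · rw [if_neg hs, if_neg hs, if_neg hs]
    · intro s _
      unfold sg
      by_cases hs : s = i
      · rw [if_pos hs, if_pos hs, if_pos hs]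
        have : (j + 1) * (n - 3) = j * (n - 3) + (n - 3) := by ring
        omega
      · rw [if_neg hs, if_neg hs, if_neg hs]

/-- a relation between degree 3 and a higher degree gives `x³ ~ x^n` -/
theorem one_block {β : FIC} {p q p' q' : ℕ} (hd : p + q = 3) (h : L1 β 1 (v2 p q) (v2 p' q'))
    (i : ℕ) (hi : i ≤ 1) : L1 β 1 (sg i 3) (sg i (p' + q')) := by
  have hf : BMap 1 1 (fun _ => i) := ⟨fun _ _ _ _ => le_rfl, fun _ _ => hi⟩
  have h1 := (FC.ofFIC β).push 1 (fun _ => i) hf h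
  refine (FC.ofFIC β).ext ?_ ?_ h1
  · intro s _
    rw [psh1]
    unfold sg
    by_cases hs : s = i
    · rw [if_pos hs.symm, if_pos hs.symm, if_pos hs]; exact hd
    · rw [if_neg (Ne.symm hs), if_neg (Ne.symm hs), if_neg hs]
  · intro s _
    rw [psh1]
    unfold sg
    by_cases hs : s = i
    · rw [if_pos hs.symm, if_pos hs.symm, if_pos hs]; rfl
    · rw [if_neg (Ne.symm hs), if_neg (Ne.symm hs), if_neg hs]

theorem sg0 {β : FIC} {n : ℕ} {b : ℕ → ℕ} : L1 β 1 (sg 0 n) b ↔ L1 β 1 (v2 n 0) b := by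
  constructor
  · intro h
    refine (FC.ofFIC β).ext ?_ (fun _ _ => rfl) h
    intro s hs
    interval_cases s <;> rfl
  · intro h
    refine (FC.ofFIC β).ext ?_ (fun _ _ => rfl) h
    intro s hs
    interval_cases s <;> rfl

theorem sg1 {β : FIC} {n : ℕ} {b : ℕ → ℕ} : L1 β 1 (sg 1 n) b ↔ L1 β 1 (v2 0 n) b := by
  constructor
  · intro h
    refine (FC.ofFIC β).ext ?_ (fun _ _ => rfl) h
    intro s hs
    interval_cases s <;> rfl
  · intro h
    refine (FC.ofFIC β).ext ?_ (fun _ _ => rfl) h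
    intro s hs
    interval_cases s <;> rfl

/-- `x³` is central if degree 3 is related to a higher degree -/
theorem three_central {β : FIC} (hC : Cent β) {p q p' q' : ℕ} (hd : p + q = 3)
    (hd' : 4 ≤ p' + q') (h : L1 β 1 (v2 p q) (v2 p' q')) : L1 β 1 (v2 3 0) (v2 0 3) := by
  obtain ⟨K, hK⟩ := cent_v2 hC
  have h0 := pow_step hd' 0 (one_block hd h 0 (by omega)) K
  have h1 := pow_step hd' 1 (one_block hd h 1 (by omega)) K
  have hle : K ≤ 3 + K * (p' + q' - 3) := by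
    have : K * 1 ≤ K * (p' + q' - 3) := Nat.mul_le_mul_left _ (by omega)
    omega
  have h2 := hK _ hle
  have h3 := sg0.mp h0
  have h4 := L1_symm (sg0.mp (L1_symm h3))
  have h5 := sg1.mp h1
  have h6 := sg1.mp (L1_symm h5)
  exact L1_trans h4 (L1_trans h2 h6)

end Pool.Agent.MVO.H39
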